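import Pool.Agent.W5h74.FL.Top

/-!
# Finite families of vector fields which span the tangent spaces; gradient-like fields
-/

set_option autoImplicit false

open scoped Manifold ContDiff Topology
open Filter Set Bundle

set_option linter.unusedSectionVars false

namespace Pool.Agent.W5h74.FL

universe u

variable {n : ℕ} {N : Type u} [TopologicalSpace N] [ChartedSpace (V n) N] [IsManifold (𝓡 n) ∞ N]

lemma isCrit_iff_mfderiv {h : N → ℝ} {x : N} : IsCrit n h x ↔
    (show TangentSpace (𝓡 n) x →L[ℝ] ℝ from mfderiv (𝓡 n) 𝓘(ℝ, ℝ) h x) = 0 := by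
  constructor
  · intro hc
    ext v
    exact LinearMap.congr_fun hc v
  · intro hc
    exact LinearMap.ext fun v => DFunLike.congr_fun hc v

/-- the basis of `ℝⁿ` -/
noncomputable def bas (n : ℕ) : Module.Basis (Fin n) ℝ (V n) := (EuclideanSpace.basisFun (Fin n) ℝ).toBasis

/-- the local frame of the chart at `c` -/
noncomputable def frm (c : N) (i : Fin n) : (x : N) → TangentSpace (𝓡 n) x :=
  (trivializationAt (V n) (TangentSpace (𝓡 n)) c).localFrame (bas n) i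

/-- the field `f_c • e_i` -/
noncomputable def bumpField [T2Space N] (r : ℕ∞) (c : N) (f : SmoothBumpFunction (𝓡 n) c) (i : Fin n) :
    VField n N r where
  toFun := (f : N → ℝ) • frm c i
  contMDiff_toFun := by
    refine ContMDiffOn.smul_section_of_tsupport (u := (chartAt (V n) c).source) ?_ ?_ ?_ ?_
    · exact (f.contMDiff.of_le (by exact_mod_cast le_top)).contMDiffOn
    · exact (chartAt (V n) c).open_source
    · exact f.tsupport_subset_chartAt_source
    · exact (trivializationAt (V n) (TangentSpace (𝓡 n)) c).contMDiffOn_localFrame_baseSet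
        (r : ℕ∞ω) (bas n) i

lemma bumpField_apply [T2Space N] (r : ℕ∞) (c : N) (f : SmoothBumpFunction (𝓡 n) c) (i : Fin n)
    (x : N) : bumpField r c f i x = f x • frm c i x := rfl

lemma frm_ext (c : N) {x : N} (hx : x ∈ (chartAt (V n) c).source)
    (L : TangentSpace (𝓡 n) x →L[ℝ] ℝ) (h : ∀ i, L (frm c i x) = 0) : L = 0 := by
  have hx' : x ∈ (trivializationAt (V n) (TangentSpace (𝓡 n)) c).baseSet := hx
  have h1 : (L : TangentSpace (𝓡 n) x →ₗ[ℝ] ℝ) = 0 := by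
    refine Module.Basis.ext ((trivializationAt (V n) (TangentSpace (𝓡 n)) c).basisAt (bas n) hx') ?_
    intro i
    have h2 := h i
    unfold frm at h2
    rw [Trivialization.localFrame_apply_of_mem_baseSet _ _ hx'] at h2
    exact h2
  ext v
  exact LinearMap.congr_fun h1 v

/-- There are finitely many vector fields which span all tangent spaces. -/
theorem exists_frame (n : ℕ) (N : Type u) [TopologicalSpace N] [T2Space N] [CompactSpace N]
    [ChartedSpace (V n) N] [IsManifold (𝓡 n) ∞ N] (r : ℕ∞) :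
    ∃ (p : ℕ) (v : Fin p → VField n N r), ∀ (x : N) (L : TangentSpace (𝓡 n) x →L[ℝ] ℝ),
      (∀ j, L (v j x) = 0) → L = 0 := by
  classical
  have f : ∀ c : N, SmoothBumpFunction (𝓡 n) c := fun c => Classical.choice inferInstance
  obtain ⟨t, ht⟩ := isCompact_univ.elim_nhds_subcover (fun c => Function.support (f c))
    (fun c _ => (f c).support_mem_nhds)
  let S : Type _ := {c : N // c ∈ t} × Fin n
  let e : Fin (Fintype.card S) ≃ S := (Fintype.equivFin S).symm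
  refine ⟨Fintype.card S, fun j => bumpField r (e j).1.1 (f (e j).1.1) (e j).2, ?_⟩
  intro x L hL
  have hx := ht.2 (mem_univ x)
  obtain ⟨c, hc, hxc⟩ := mem_iUnion₂.1 hx
  refine frm_ext c ((f c).support_subset_source hxc) L fun i => ?_
  have h1 := hL (e.symm (⟨c, hc⟩, i))
  have h2 : e (e.symm (⟨c, hc⟩, i)) = (⟨c, hc⟩, i) := Equiv.apply_symm_apply _ _
  have h3 : L (bumpField r c (f c) i x) = 0 := by
    have key : ∀ q : S, q = (⟨c, hc⟩, i) → L (bumpField r q.1.1 (f q.1.1) q.2 x) = 0 →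
        L (bumpField r c (f c) i x) = 0 := by
      rintro q rfl h
      exact h
    exact key _ h2 h1
  rw [bumpField_apply, map_smul, smul_eq_mul] at h3
  exact (mul_eq_zero.1 h3).resolve_left hxc

/-- The derivative of a `C^{r+1}` function in the direction of a `C^r` vector field is `C^r`. -/
theorem contMDiff_dirDeriv {r : ℕ∞} (X : VField n N r) {h : N → ℝ}
    (hh : ContMDiff (𝓡 n) 𝓘(ℝ, ℝ) ((r + 1 : ℕ∞) : ℕ∞ω) h) :
    ContMDiff (𝓡 n) 𝓘(ℝ, ℝ) (r : ℕ∞ω) (dirDeriv (fun x => X x) h) := by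
  have h1 : ContMDiff (𝓡 n).tangent 𝓘(ℝ, ℝ).tangent (r : ℕ∞ω) (tangentMap (𝓡 n) 𝓘(ℝ, ℝ) h) :=
    hh.contMDiff_tangentMap (by push_cast; rfl)
  have h2 := h1.comp X.contMDiff
  have h3 := (contMDiff_snd_tangentBundle_modelSpace ℝ 𝓘(ℝ, ℝ) (n := (r : ℕ∞ω))).comp h2
  exact h3

/-- the field `∑ (v_j h) v_j` -/
noncomputable def gradField {r : ℕ∞} {p : ℕ} (v : Fin p → VField n N r) {h : N → ℝ}
    (hh : ContMDiff (𝓡 n) 𝓘(ℝ, ℝ) ((r + 1 : ℕ∞) : ℕ∞ω) h) : VField n N r where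
  toFun := fun x => ∑ j, dirDeriv (fun x => v j x) h x • v j x
  contMDiff_toFun := by
    refine ContMDiff.sum_section fun j _ => ?_
    exact (contMDiff_dirDeriv (v j) hh).smul_section (v j).contMDiff

lemma gradField_apply {r : ℕ∞} {p : ℕ} (v : Fin p → VField n N r) {h : N → ℝ}
    (hh : ContMDiff (𝓡 n) 𝓘(ℝ, ℝ) ((r + 1 : ℕ∞) : ℕ∞ω) h) (x : N) :
    gradField v hh x = ∑ j, dirDeriv (fun x => v j x) h x • v j x := rfl

lemma gradField_crit {r : ℕ∞} {p : ℕ} (v : Fin p → VField n N r) {h : N → ℝ}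
    (hh : ContMDiff (𝓡 n) 𝓘(ℝ, ℝ) ((r + 1 : ℕ∞) : ℕ∞ω) h) {x : N} (hx : IsCrit n h x) :
    gradField v hh x = 0 := by
  rw [gradField_apply]
  refine Finset.sum_eq_zero fun j _ => ?_
  have : dirDeriv (fun x => v j x) h x = 0 := by
    unfold dirDeriv
    rw [show diff n h x = 0 from hx]
    rfl
  rw [this, zero_smul]

lemma dirDeriv_gradField {r : ℕ∞} {p : ℕ} (v : Fin p → VField n N r) {h : N → ℝ}
    (hh : ContMDiff (𝓡 n) 𝓘(ℝ, ℝ) ((r + 1 : ℕ∞) : ℕ∞ω) h) (x : N) :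
    dirDeriv (fun x => gradField v hh x) h x = ∑ j, dirDeriv (fun x => v j x) h x ^ 2 := by
  have h1 : dirDeriv (fun x => gradField v hh x) h x =
      (show TangentSpace (𝓡 n) x →L[ℝ] ℝ from mfderiv (𝓡 n) 𝓘(ℝ, ℝ) h x)
        (∑ j, dirDeriv (fun x => v j x) h x • v j x) := rfl
  rw [h1, map_sum]
  refine Finset.sum_congr rfl fun j _ => ?_
  rw [map_smul, smul_eq_mul, sq]
  rfl

lemma dirDeriv_gradField_pos {r : ℕ∞} {p : ℕ} {v : Fin p → VField n N r}
    (hv : ∀ (x : N) (L : TangentSpace (𝓡 n) x →L[ℝ] ℝ), (∀ j, L (v j x) = 0) → L = 0) {h : N → ℝ}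
    (hh : ContMDiff (𝓡 n) 𝓘(ℝ, ℝ) ((r + 1 : ℕ∞) : ℕ∞ω) h) {x : N} (hx : ¬ IsCrit n h x) :
    0 < dirDeriv (fun x => gradField v hh x) h x := by
  rw [dirDeriv_gradField]
  have h0 : ∀ j ∈ Finset.univ, 0 ≤ dirDeriv (fun x => v j x) h x ^ 2 := fun j _ => sq_nonneg _
  refine lt_of_le_of_ne (Finset.sum_nonneg h0) fun h1 => hx ?_
  have h2 := (Finset.sum_eq_zero_iff_of_nonneg h0).1 h1.symm
  refine isCrit_iff_mfderiv.2 (hv x _ fun j => ?_)
  exact pow_eq_zero_iff (two_ne_zero) |>.1 (h2 j (Finset.mem_univ j))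

lemma dirDeriv_add (X Y : (x : N) → TangentSpace (𝓡 n) x) (h : N → ℝ) (x : N) :
    dirDeriv (fun x => X x + Y x) h x = dirDeriv X h x + dirDeriv Y h x :=
  map_add (mfderiv (𝓡 n) 𝓘(ℝ, ℝ) h x) _ _

lemma dirDeriv_smul (a : ℝ) (X : (x : N) → TangentSpace (𝓡 n) x) (h : N → ℝ) (x : N) :
    dirDeriv (fun x => a • X x) h x = a * dirDeriv X h x :=
  map_smul (mfderiv (𝓡 n) 𝓘(ℝ, ℝ) h x) _ _

end Pool.Agent.W5h74.FL
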