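import Pool.Agent.W5h74.FL.Morse
import Pool.Agent.W5h74.FL.Frame

/-!
# Functions with finitely many critical points are dense in affine families
-/

set_option autoImplicit false
set_option linter.unusedSectionVars false

open scoped Manifold ContDiff Topology
open Filter Set MeasureTheory

namespace Pool.Agent.W5h74.FL

universe u

section grad

variable {n : ℕ}

/-- the gradient of a function on `ℝⁿ` -/
noncomputable def gr (F : V n → ℝ) (y : V n) : V n :=
  ∑ i, fderiv ℝ F y (EuclideanSpace.single i 1) • (EuclideanSpace.single i 1 : V n)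

lemma gr_apply (F : V n → ℝ) (y : V n) (i : Fin n) :
    gr F y i = fderiv ℝ F y (EuclideanSpace.single i 1) := by
  simp [gr, Pi.single_apply]

lemma gr_zero {F : V n → ℝ} {y : V n} : gr F y = 0 ↔ fderiv ℝ F y = 0 := by
  constructor
  · intro h
    have h1 : ∀ i, fderiv ℝ F y (EuclideanSpace.single i 1) = 0 := by
      intro i
      rw [← gr_apply, h]
      rfl
    have h2 : ((fderiv ℝ F y : V n →L[ℝ] ℝ) : V n →ₗ[ℝ] ℝ) = 0 := by
      refine Module.Basis.ext (EuclideanSpace.basisFun (Fin n) ℝ).toBasis fun i => ?_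
      simpa using h1 i
    ext v
    exact LinearMap.congr_fun h2 v
  · intro h
    simp [gr, h]

lemma gr_contDiffOn {F : V n → ℝ} {O : Set (V n)} (hO : IsOpen O) (hF : ContDiffOn ℝ 2 F O) :
    ContDiffOn ℝ 1 (gr F) O := by
  have h1 : ContDiffOn ℝ 1 (fderiv ℝ F) O := hF.fderiv_of_isOpen hO (by norm_num)
  unfold gr
  exact ContDiffOn.sum fun i _ => (h1.clm_apply contDiffOn_const).smul contDiffOn_const

lemma gr_congr {F G : V n → ℝ} {y : V n} (h : F =ᶠ[𝓝 y] G) : gr F y = gr G y := by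
  unfold gr
  rw [h.fderiv_eq]

lemma gr_fam {ι : Type*} [Fintype ι] {F : V n → ℝ} {g : ι → V n → ℝ} {O : Set (V n)}
    (hO : IsOpen O) (hF : ContDiffOn ℝ 2 F O) (hg : ∀ j, ContDiffOn ℝ 2 (g j) O) (a : ι → ℝ)
    {y : V n} (hy : y ∈ O) :
    gr (fun y => F y + ∑ j, a j * g j y) y = fam (gr F) (fun j => gr (g j)) a y := by
  have h1 : DifferentiableAt ℝ F y :=
    (hF.contDiffAt (hO.mem_nhds hy)).differentiableAt two_ne_zero
  have h2 : ∀ j, DifferentiableAt ℝ (g j) y := fun j =>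
    ((hg j).contDiffAt (hO.mem_nhds hy)).differentiableAt two_ne_zero
  have h3 : HasFDerivAt (fun y => F y + ∑ j, a j * g j y)
      (fderiv ℝ F y + ∑ j, a j • fderiv ℝ (g j) y) y :=
    h1.hasFDerivAt.add (HasFDerivAt.fun_sum fun j _ => (h2 j).hasFDerivAt.const_mul (a j))
  ext i
  rw [gr_apply, h3.fderiv]
  simp only [fam, PiLp.add_apply, gr_apply, add_apply,
    sum_apply, smul_apply]
  congr 1
  rw [WithLp.ofLp_sum, Finset.sum_apply]
  refine Finset.sum_congr rfl fun j _ => ?_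
  rw [PiLp.smul_apply, gr_apply]

lemma gr_coord (i : Fin n) (y : V n) : gr (fun y => y i) y = EuclideanSpace.single i 1 := by
  have h1 : HasFDerivAt (fun y : V n => y i) (EuclideanSpace.proj i : V n →L[ℝ] ℝ) y :=
    (EuclideanSpace.proj i : V n →L[ℝ] ℝ).hasFDerivAt
  ext k
  rw [gr_apply, h1.fderiv]
  simp [eq_comm]

end grad

variable {n : ℕ} {N : Type u} [TopologicalSpace N] [ChartedSpace (V n) N] [IsManifold (𝓡 n) ∞ N]

/-- a function in the chart at `c` -/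
noncomputable def chf (c : N) (h : N → ℝ) : V n → ℝ := h ∘ (extChartAt (𝓡 n) c).symm

lemma chf_contDiffOn (c : N) {h : N → ℝ} (hh : ContMDiff (𝓡 n) 𝓘(ℝ, ℝ) 2 h) :
    ContDiffOn ℝ 2 (chf c h) (extChartAt (𝓡 n) c).target := by
  rw [← contMDiffOn_iff_contDiffOn]
  have h2 : ContMDiffOn 𝓘(ℝ, V n) (𝓡 n) 2 (extChartAt (𝓡 n) c).symm
      (extChartAt (𝓡 n) c).target := by
    have : IsManifold (𝓡 n) 2 N := IsManifold.of_le (n := ∞)
      (show ((2 : ℕ∞) : ℕ∞ω) ≤ ∞ from by exact_mod_cast le_top)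
    exact contMDiffOn_extChartAt_symm c
  exact hh.comp_contMDiffOn h2

lemma isCrit_iff (c : N) {x : N} (hx : x ∈ (extChartAt (𝓡 n) c).source) {h : N → ℝ}
    (hh : ContMDiff (𝓡 n) 𝓘(ℝ, ℝ) 2 h) :
    IsCrit n h x ↔ gr (chf c h) (extChartAt (𝓡 n) c x) = 0 := by
  have hx' : x ∈ (chartAt (V n) c).source := by rwa [extChartAt_source] at hx
  have h1 : DifferentiableAt ℝ (chf c h) (extChartAt (𝓡 n) c x) :=
    ((chf_contDiffOn c hh).contDiffAt ((isOpen_extChartAt_target c).mem_nhds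
      ((extChartAt (𝓡 n) c).map_source hx))).differentiableAt two_ne_zero
  have h2 : h =ᶠ[𝓝 x] (chf c h) ∘ (extChartAt (𝓡 n) c) := by
    filter_upwards [(isOpen_extChartAt_source (I := 𝓡 n) c).mem_nhds hx] with z hz
    simp only [chf, Function.comp_apply, (extChartAt (𝓡 n) c).left_inv hz]
  have h3 : mfderiv (𝓡 n) 𝓘(ℝ, ℝ) h x =
      (mfderiv 𝓘(ℝ, V n) 𝓘(ℝ, ℝ) (chf c h) (extChartAt (𝓡 n) c x)).comp
        (mfderiv (𝓡 n) 𝓘(ℝ, V n) (extChartAt (𝓡 n) c) x) := by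
    have h4 := mfderiv_comp (I := 𝓡 n) (I' := 𝓘(ℝ, V n)) (I'' := 𝓘(ℝ, ℝ)) x
      (g := chf c h) (f := extChartAt (𝓡 n) c) h1.mdifferentiableAt
      (mdifferentiableAt_extChartAt hx')
    rw [← h4]
    exact h2.mfderiv_eq
  have h5 := isInvertible_mfderiv_extChartAt (I := 𝓡 n) hx
  obtain ⟨e, he⟩ := h5
  rw [gr_zero]
  constructor
  · intro h6
    have h7 : mfderiv (𝓡 n) 𝓘(ℝ, ℝ) h x = 0 := isCrit_iff_mfderiv.1 h6
    rw [h3, ← he] at h7
    have h8 : mfderiv 𝓘(ℝ, V n) 𝓘(ℝ, ℝ) (chf c h) (extChartAt (𝓡 n) c x) = 0 := by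
      ext v
      have h9 := DFunLike.congr_fun h7 (e.symm v)
      have h10 : e (e.symm v) = v := e.apply_symm_apply v
      change mfderiv 𝓘(ℝ, V n) 𝓘(ℝ, ℝ) (chf c h) (extChartAt (𝓡 n) c x) (e (e.symm v)) = 0 at h9
      rw [h10] at h9
      exact h9
    rw [mfderiv_eq_fderiv] at h8
    exact h8
  · intro h6
    have h8 : mfderiv 𝓘(ℝ, V n) 𝓘(ℝ, ℝ) (chf c h) (extChartAt (𝓡 n) c x) = 0 := by
      rw [mfderiv_eq_fderiv]
      exact h6
    refine isCrit_iff_mfderiv.2 ?_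
    show mfderiv (𝓡 n) 𝓘(ℝ, ℝ) h x = 0
    rw [h3, h8]
    rfl

/-- the coordinate functions of the chart at `c`, cut off -/
noncomputable def cf [T2Space N] (c : N) (f : SmoothBumpFunction (𝓡 n) c) (i : Fin n) (x : N) : ℝ :=
  f x • (extChartAt (𝓡 n) c x) i

lemma cf_smooth [T2Space N] (c : N) (f : SmoothBumpFunction (𝓡 n) c) (i : Fin n) :
    ContMDiff (𝓡 n) 𝓘(ℝ, ℝ) ∞ (cf c f i) := by
  refine f.contMDiff_smul ?_
  have h1 : ContMDiffOn (𝓡 n) 𝓘(ℝ, V n) ∞ (extChartAt (𝓡 n) c) (chartAt (V n) c).source :=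
    contMDiffOn_extChartAt
  have h2 : ContMDiff 𝓘(ℝ, V n) 𝓘(ℝ, ℝ) ∞ (fun y : V n => y i) :=
    (EuclideanSpace.proj i : V n →L[ℝ] ℝ).contDiff.contMDiff
  exact h2.comp_contMDiffOn h1

/-- **Perturbation to functions with finitely many critical points.** -/
theorem exists_morse_family (n : ℕ) (N : Type u) [TopologicalSpace N] [T2Space N] [CompactSpace N]
    [ChartedSpace (V n) N] [IsManifold (𝓡 n) ∞ N] :
    ∃ (ι : Type u) (_ : Fintype ι) (f : ι → N → ℝ), (∀ j, ContMDiff (𝓡 n) 𝓘(ℝ, ℝ) ∞ (f j)) ∧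
      ∀ H : N → ℝ, ContMDiff (𝓡 n) 𝓘(ℝ, ℝ) 2 H →
        Dense {a : ι → ℝ | {x | IsCrit n (fun x => H x + ∑ j, a j * f j x) x}.Finite} := by
  classical
  have f : ∀ c : N, SmoothBumpFunction (𝓡 n) c := fun c => Classical.choice inferInstance
  -- compact neighbourhoods
  let Q : N → Set N := fun c => interior {x | f c x = 1} ∩ (extChartAt (𝓡 n) c).source
  have hQo : ∀ c, IsOpen (Q c) := fun c => isOpen_interior.inter (isOpen_extChartAt_source c)
  have hQ : ∀ c, Q c ∈ 𝓝 c := by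
    intro c
    refine (hQo c).mem_nhds ⟨?_, mem_extChartAt_source c⟩
    exact mem_interior_iff_mem_nhds.2 ((f c).eventuallyEq_one)
  have hK : ∀ c : N, ∃ K ∈ 𝓝 c, IsCompact K ∧ K ⊆ Q c := by
    intro c
    obtain ⟨K, hK1, hK2, hK3⟩ := local_compact_nhds (hQ c)
    exact ⟨K, hK1, hK3, hK2⟩
  choose K hKn hKc hKQ using hK
  obtain ⟨t, -, ht⟩ := isCompact_univ.elim_nhds_subcover K (fun c _ => hKn c)
  refine ⟨{c : N // c ∈ t} × Fin n, inferInstance, fun j => cf j.1.1 (f j.1.1) j.2,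
    fun j => cf_smooth _ _ _, fun H hH => ?_⟩
  set g : {c : N // c ∈ t} × Fin n → N → ℝ := fun j => cf j.1.1 (f j.1.1) j.2 with hg
  have hg2 : ∀ j, ContMDiff (𝓡 n) 𝓘(ℝ, ℝ) 2 (g j) := fun j =>
    (cf_smooth j.1.1 (f j.1.1) j.2).of_le
      (show ((2 : ℕ∞) : ℕ∞ω) ≤ ∞ from by exact_mod_cast le_top)
  -- the functions in the charts
  let O : N → Set (V n) := fun c =>
    (extChartAt (𝓡 n) c).target ∩ (extChartAt (𝓡 n) c).symm ⁻¹' Q c
  have hO : ∀ c, IsOpen (O c) := fun c =>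
    (continuousOn_extChartAt_symm c).isOpen_inter_preimage (isOpen_extChartAt_target c) (hQo c)
  let L : N → Set (V n) := fun c => extChartAt (𝓡 n) c '' K c
  have hL : ∀ c, IsCompact (L c) := fun c =>
    (hKc c).image_of_continuousOn ((continuousOn_extChartAt c).mono fun x hx => (hKQ c hx).2)
  have hLO : ∀ c, L c ⊆ O c := by
    rintro c _ ⟨x, hx, rfl⟩
    have hxs := (hKQ c hx).2
    refine ⟨(extChartAt (𝓡 n) c).map_source hxs, ?_⟩
    show (extChartAt (𝓡 n) c).symm (extChartAt (𝓡 n) c x) ∈ Q c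
    rw [(extChartAt (𝓡 n) c).left_inv hxs]
    exact hKQ c hx
  have hu : ∀ c, ContDiffOn ℝ 1 (gr (chf c H)) (O c) := fun c =>
    (gr_contDiffOn (isOpen_extChartAt_target c) (chf_contDiffOn c hH)).mono inter_subset_left
  have hw : ∀ c j, ContDiffOn ℝ 1 (gr (chf c (g j))) (O c) := fun c j =>
    (gr_contDiffOn (isOpen_extChartAt_target c) (chf_contDiffOn c (hg2 j))).mono inter_subset_left
  have hopen : ∀ c : {c : N // c ∈ t},
      IsOpen (Good (gr (chf c.1 H)) (fun j => gr (chf c.1 (g j))) (L c.1)) := fun c =>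
    isOpen_good (hO c.1) (hL c.1) (hLO c.1) (hu c.1) (hw c.1)
  have hdense : ∀ c : {c : N // c ∈ t},
      Dense (Good (gr (chf c.1 H)) (fun j => gr (chf c.1 (g j))) (L c.1)) := by
    intro c
    refine (dense_good (hO c.1) (hu c.1) (hw c.1) (fun i => (c, i)) ?_).mono ?_
    · intro i y hy
      have h1 : chf c.1 (g (c, i)) =ᶠ[𝓝 y] fun y => y i := by
        filter_upwards [(hO c.1).mem_nhds hy] with z hz
        have h3 : (extChartAt (𝓡 n) c.1).symm z ∈ {x | f c.1 x = 1} := interior_subset hz.2.1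
        have h2 : f c.1 ((extChartAt (𝓡 n) c.1).symm z) = 1 := h3
        simp only [chf, hg, Function.comp_apply, cf, h2, one_smul,
          (extChartAt (𝓡 n) c.1).right_inv hz.1]
      rw [gr_congr h1, gr_coord]
    · intro a ha y hy
      exact ha y (hLO c.1 hy)
  have hdi := dense_iInter_of_isOpen hopen hdense
  refine hdi.mono fun a ha => ?_
  rw [mem_iInter] at ha
  set Ha : N → ℝ := fun x => H x + ∑ j, a j * g j x with hHa
  have hHa2 : ContMDiff (𝓡 n) 𝓘(ℝ, ℝ) 2 Ha := by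
    refine hH.add ?_
    exact contMDiff_finsetSum fun j _ => contMDiff_const.mul (hg2 j)
  show {x | IsCrit n Ha x}.Finite
  by_contra hinf
  obtain ⟨x, -, hx⟩ := Set.Infinite.exists_accPt_of_subset_isCompact hinf isCompact_univ
    (subset_univ _)
  rw [accPt_iff_frequently_nhdsNE] at hx
  refine hx ?_
  obtain ⟨c, hc, hxc⟩ := mem_iUnion₂.1 (ht (mem_univ x))
  have hxs : x ∈ (extChartAt (𝓡 n) c).source := (hKQ c hxc).2
  have hyL : extChartAt (𝓡 n) c x ∈ L c := ⟨x, hxc, rfl⟩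
  have hgood := ha ⟨c, hc⟩ _ hyL
  have hfam : ∀ y ∈ O c, gr (chf c Ha) y = fam (gr (chf c H)) (fun j => gr (chf c (g j))) a y := by
    intro y hy
    exact gr_fam (isOpen_extChartAt_target c) (chf_contDiffOn c hH)
      (fun j => chf_contDiffOn c (hg2 j)) a hy.1
  have hev : gr (chf c Ha) =ᶠ[𝓝 (extChartAt (𝓡 n) c x)]
      fam (gr (chf c H)) (fun j => gr (chf c (g j))) a := by
    filter_upwards [(hO c).mem_nhds (hLO c hyL)] with y hy
    exact hfam y hy
  have hcd : ContDiffOn ℝ 1 (gr (chf c Ha)) (O c) :=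
    (gr_contDiffOn (isOpen_extChartAt_target c) (chf_contDiffOn c hHa2)).mono inter_subset_left
  have hcdat := hcd.contDiffAt ((hO c).mem_nhds (hLO c hyL))
  have hiso : ∀ᶠ z in 𝓝[≠] (extChartAt (𝓡 n) c x), gr (chf c Ha) z ≠ 0 := by
    rcases hgood with h1 | h1
    · have h2 : gr (chf c Ha) (extChartAt (𝓡 n) c x) ≠ 0 := by
        rw [hfam _ (hLO c hyL)]
        exact h1
      exact (hcdat.continuousAt.eventually_ne h2).filter_mono nhdsWithin_le_nhds
    · refine isolated_of_det (hcdat.differentiableAt one_ne_zero) ?_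
      rw [hev.fderiv_eq]
      exact h1
  have htend : Tendsto (extChartAt (𝓡 n) c) (𝓝[≠] x) (𝓝[≠] (extChartAt (𝓡 n) c x)) := by
    refine tendsto_nhdsWithin_iff.2 ⟨(continuousAt_extChartAt' hxs).tendsto.mono_left
      nhdsWithin_le_nhds, ?_⟩
    have h1 : ∀ᶠ z in 𝓝[≠] x, z ∈ (extChartAt (𝓡 n) c).source :=
      nhdsWithin_le_nhds ((isOpen_extChartAt_source c).mem_nhds hxs)
    filter_upwards [h1, self_mem_nhdsWithin] with z hz hzx
    intro h2
    exact hzx ((extChartAt (𝓡 n) c).injOn hz hxs h2)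
  have h1 : ∀ᶠ z in 𝓝[≠] x, z ∈ (extChartAt (𝓡 n) c).source :=
    nhdsWithin_le_nhds ((isOpen_extChartAt_source c).mem_nhds hxs)
  filter_upwards [htend.eventually hiso, h1] with z hz hzs
  intro hcr
  exact hz ((isCrit_iff c hzs hHa2).1 hcr)

/-- The same, with parameters in `ℝ^p`. -/
theorem exists_morse_family_fin (n : ℕ) (N : Type u) [TopologicalSpace N] [T2Space N]
    [CompactSpace N] [ChartedSpace (V n) N] [IsManifold (𝓡 n) ∞ N] :
    ∃ (p : ℕ) (f : Fin p → N → ℝ), (∀ j, ContMDiff (𝓡 n) 𝓘(ℝ, ℝ) ∞ (f j)) ∧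
      ∀ H : N → ℝ, ContMDiff (𝓡 n) 𝓘(ℝ, ℝ) 2 H →
        Dense {a : Fin p → ℝ | {x | IsCrit n (fun x => H x + ∑ j, a j * f j x) x}.Finite} := by
  obtain ⟨ι, hι, f, hf, hD⟩ := exists_morse_family n N
  let e : Fin (Fintype.card ι) ≃ ι := (Fintype.equivFin ι).symm
  refine ⟨Fintype.card ι, fun j => f (e j), fun j => hf _, fun H hH => ?_⟩
  let Ψ : (Fin (Fintype.card ι) → ℝ) ≃ₜ (ι → ℝ) := Homeomorph.piCongrLeft (Y := fun _ => ℝ) e
  have hΨ : ∀ a i, Ψ a (e i) = a i := fun a i => Equiv.piCongrLeft_apply_apply (P := fun _ => ℝ) e a i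
  have h1 := (hD H hH).preimage Ψ.isOpenMap
  refine h1.mono fun a ha => ?_
  have h2 : (fun x => H x + ∑ j, a j * f (e j) x) = fun x => H x + ∑ i, Ψ a i * f i x := by
    funext x
    congr 1
    rw [← Equiv.sum_comp e]
    exact Finset.sum_congr rfl fun j _ => by rw [hΨ]
  show {x | IsCrit n (fun x => H x + ∑ j, a j * f (e j) x) x}.Finite
  rw [h2]
  exact ha

end Pool.Agent.W5h74.FL
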