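import Pool.Agent.W5h74.FL.PartA
import Pool.Agent.W5h74.FL.MorseM

/-!
# Fields of the form `A dH`
-/

set_option autoImplicit false
set_option linter.unusedSectionVars false

open scoped Manifold ContDiff Topology
open Filter Set MeasureTheory

namespace Pool.Agent.W5h74.FL

universe u

section defs

variable (n : ℕ) (N : Type u) [TopologicalSpace N] [ChartedSpace (V n) N]

/-- The families of linear maps `A x : T*ₓN → TₓN`, `x ∈ N`, that is, from the linear forms on the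
tangent space at `x` to this tangent space (which is `V n` in Mathlib:
`TangentSpace (𝓡 n) x = V n`). -/
abbrev CoMap := N → (V n →ₗ[ℝ] ℝ) →ₗ[ℝ] V n

variable {n N} [IsManifold (𝓡 n) ∞ N]

/-- `A : T*N → TN` is of class `C^r`: it maps the differentials of smooth functions to vector fields
of class `C^r`. -/
def IsCr (r : ℕ∞) (A : CoMap n N) : Prop :=
  ∀ g : N → ℝ, ContMDiff (𝓡 n) 𝓘(ℝ, ℝ) ∞ g → ∃ Z : VField n N r, ∀ x, Z.fld x = A x (diff n g x)

end defs

variable {n : ℕ} {N : Type u} [TopologicalSpace N] [T2Space N] [CompactSpace N]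
  [ChartedSpace (V n) N] [IsManifold (𝓡 n) ∞ N]

lemma diff_fam {ι : Type*} [Fintype ι] {H : N → ℝ} (hH : MDifferentiable (𝓡 n) 𝓘(ℝ, ℝ) H)
    {f : ι → N → ℝ} (hf : ∀ j, MDifferentiable (𝓡 n) 𝓘(ℝ, ℝ) (f j)) (a : ι → ℝ) (x : N) :
    diff n (fun x => H x + ∑ j, a j * f j x) x = diff n H x + ∑ j, a j • diff n (f j) x := by
  classical
  have key : ∀ s : Finset ι, MDifferentiableAt (𝓡 n) 𝓘(ℝ, ℝ) (fun x => H x + ∑ j ∈ s, a j * f j x) x ∧
      diff n (fun x => H x + ∑ j ∈ s, a j * f j x) x = diff n H x + ∑ j ∈ s, a j • diff n (f j) x := by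
    intro s
    induction s using Finset.induction_on with
    | empty =>
      have e1 : (fun x => H x + ∑ i ∈ (∅ : Finset ι), a i * f i x) = H := by
        funext z
        simp
      rw [e1, Finset.sum_empty, add_zero]
      exact ⟨hH x, rfl⟩
    | insert j s hj ih =>
      have h1 : HasMFDerivAt (𝓡 n) 𝓘(ℝ, ℝ) (fun x => a j * f j x) x
          (show TangentSpace (𝓡 n) x →L[ℝ] ℝ from a j • mfderiv (𝓡 n) 𝓘(ℝ, ℝ) (f j) x) := by
        exact (hf j x).hasMFDerivAt.const_smul (a j)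
      have h2 := ih.1.hasMFDerivAt.add h1
      have e1 : (fun x => H x + ∑ i ∈ insert j s, a i * f i x) =
          (fun x => H x + ∑ i ∈ s, a i * f i x) + fun x => a j * f j x := by
        funext z
        simp only [Pi.add_apply]
        rw [Finset.sum_insert hj]
        ring
      rw [e1]
      refine ⟨h2.mdifferentiableAt, ?_⟩
      have e2 : (diff n H x + ∑ i ∈ insert j s, a i • diff n (f i) x) =
          (diff n H x + ∑ i ∈ s, a i • diff n (f i) x) + a j • diff n (f j) x := by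
        rw [Finset.sum_insert hj]
        abel
      rw [e2, ← ih.2]
      refine LinearMap.ext fun v => ?_
      exact DFunLike.congr_fun h2.mfderiv v
  exact (key Finset.univ).2

lemma omega_of_tendsto {φ : N → ℝ → N} {p x q : N} (h : Tendsto (φ p) atTop (𝓝 x))
    (hq : q ∈ omegaLim φ p) : q = x := by
  by_contra hne
  obtain ⟨U, W, hU, hW, hqU, hxW, hUW⟩ := t2_separation hne
  obtain ⟨T, hT⟩ := eventually_atTop.1 (h.eventually (hW.mem_nhds hxW))
  obtain ⟨t, ht, htU⟩ := hq U (hU.mem_nhds hqU) T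
  exact (disjoint_left.1 hUW) htU (hT t ht)

/-- **The fields `A dH`**, for neighbourhoods along affine families. -/
theorem approx_of_form_aff {r : ℕ∞} (hr : 1 ≤ r)
    {A : CoMap n N} (hA : IsCr r A)
    (hpos : ∀ (x : N) (ξ : V n →ₗ[ℝ] ℝ), 0 ≤ ξ (A x ξ)) {H : N → ℝ}
    (hH : ContMDiff (𝓡 n) 𝓘(ℝ, ℝ) ((r + 1 : ℕ∞) : ℕ∞ω) H) (X : VField n N r)
    (hX : ∀ x, X.fld x = A x (diff n H x))
    (U : Set (VField n N r)) (hU : AffOpen U) (hXU : X ∈ U) :
    ∃ Y ∈ U, ∃ h : N → ℝ, ContMDiff (𝓡 n) 𝓘(ℝ, ℝ) ((r + 1 : ℕ∞) : ℕ∞ω) h ∧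
      (ContMDiff (𝓡 n) 𝓘(ℝ, ℝ) ∞ H → ContMDiff (𝓡 n) 𝓘(ℝ, ℝ) ∞ h) ∧
      (∀ x, ¬ IsCrit n h x → 0 < dirDeriv (fun x => Y x) h x) ∧ (∀ x, IsCrit n h x → Y x = 0) ∧
      ∃ (m : ℕ) (P : Fin m → N), Function.Injective P ∧ (∀ x, IsCrit n h x ↔ ∃ i, P i = x) ∧
      ∀ ψ, IsFlow (fun x => Y x) ψ → (∀ i t, ψ (P i) t = P i) ∧
        (∀ x, ∃ i, Tendsto (ψ x) atTop (𝓝 (P i))) ∧
        ∀ (_ : MeasurableSpace N) (μ : Measure N), FiniteAttractors μ ψ := by
  classical
  obtain ⟨p, f, hf, hD⟩ := exists_morse_family_fin n N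
  have hr2 : (2 : ℕ∞ω) ≤ ((r + 1 : ℕ∞) : ℕ∞ω) := by
    have : (2 : ℕ∞) ≤ r + 1 := by
      calc (2 : ℕ∞) = 1 + 1 := by norm_num
        _ ≤ r + 1 := add_le_add_left hr 1
    exact (show ((2 : ℕ∞) : ℕ∞ω) ≤ ((r + 1 : ℕ∞) : ℕ∞ω) from by exact_mod_cast this)
  have hH2 : ContMDiff (𝓡 n) 𝓘(ℝ, ℝ) 2 H := hH.of_le hr2
  have hfr : ∀ j, ContMDiff (𝓡 n) 𝓘(ℝ, ℝ) ((r + 1 : ℕ∞) : ℕ∞ω) (f j) := fun j =>
    (hf j).of_le (by exact_mod_cast le_top)
  choose W hW using fun j => hA (f j) (hf j)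
  obtain ⟨a, haU, ha⟩ := mem_closure_iff_nhds.1 ((hD H hH2) 0) _ (hU X hXU p W)
  set Ha : N → ℝ := fun x => H x + ∑ j, a j * f j x with hHa
  have hHar : ContMDiff (𝓡 n) 𝓘(ℝ, ℝ) ((r + 1 : ℕ∞) : ℕ∞ω) Ha :=
    hH.add (contMDiff_finsetSum fun j _ => contMDiff_const.mul (hfr j))
  have hHas : ContMDiff (𝓡 n) 𝓘(ℝ, ℝ) ∞ H → ContMDiff (𝓡 n) 𝓘(ℝ, ℝ) ∞ Ha := fun h =>
    h.add (contMDiff_finsetSum fun j _ => contMDiff_const.mul (hf j))
  have hfin : {x | IsCrit n Ha x}.Finite := ha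
  let X' : VField n N r := X + ∑ j, a j • W j
  have hX' : ∀ x, X' x = A x (diff n Ha x) := by
    intro x
    have h1 : diff n Ha x = diff n H x + ∑ j, a j • diff n (f j) x :=
      diff_fam (hH2.mdifferentiable two_ne_zero)
        (fun j => ((hf j).mdifferentiable (by simp))) a x
    have h2 : ∀ s : Finset (Fin p), (X + ∑ j ∈ s, a j • W j) x =
        A x (diff n H x + ∑ j ∈ s, a j • diff n (f j) x) := by
      intro s
      induction s using Finset.induction_on with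
      | empty => simpa using hX x
      | insert j s hj ih =>
        rw [Finset.sum_insert hj, Finset.sum_insert hj]
        have e1 : X + (a j • W j + ∑ i ∈ s, a i • W i) =
          (X + ∑ i ∈ s, a i • W i) + a j • W j := by abel
        have e2 : diff n H x + (a j • diff n (f j) x + ∑ i ∈ s, a i • diff n (f i) x) =
          (diff n H x + ∑ i ∈ s, a i • diff n (f i) x) + a j • diff n (f j) x := by abel
        rw [e1, e2, map_add, map_smul, ← ih, ← hW j x]
        rfl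
    rw [h1]
    exact h2 Finset.univ
  have hcrit : ∀ x, IsCrit n Ha x → X' x = 0 := by
    intro x hx
    rw [hX' x]
    have : diff n Ha x = 0 := hx
    rw [this]
    exact map_zero (A x)
  -- the critical points
  let e : Fin (Fintype.card hfin.toFinset) ≃ hfin.toFinset := (Fintype.equivFin _).symm
  let P : Fin (Fintype.card hfin.toFinset) → N := fun i => (e i).1
  have hPinj : Function.Injective P := fun i j hij => e.injective (Subtype.ext hij)
  have hPcrit : ∀ i, IsCrit n Ha (P i) := fun i => hfin.mem_toFinset.1 (e i).2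
  have hPall : ∀ x, IsCrit n Ha x → ∃ i, P i = x := by
    intro x hx
    refine ⟨e.symm ⟨x, hfin.mem_toFinset.2 hx⟩, ?_⟩
    show (e (e.symm _)).1 = x
    rw [Equiv.apply_symm_apply]
  have hmono : ∀ x, 0 ≤ dirDeriv (fun x => X' x) Ha x := by
    intro x
    have h1 : dirDeriv (fun x => X' x) Ha x = diff n Ha x (X' x) := rfl
    rw [h1, hX' x]
    exact hpos x _
  have hfix : ∀ φ, IsFlow (fun x => X' x) φ → ∀ i t, φ (P i) t = P i := by
    intro φ hφ i t
    have h1 : IsMIntegralCurve (I := 𝓡 n) (fun _ : ℝ => P i) (fun x => X' x) :=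
      isMIntegralCurve_const (hcrit _ (hPcrit i))
    have h2 := flow_unique (X'.c1 hr) (hφ (P i)).2 h1 (hφ (P i)).1
    exact congrFun h2 t
  obtain ⟨Y, hYU, hYh, hYX, hY⟩ := approx_of_weak_lyapunov_aff hr X' hHar hmono (fun i => {P i})
    (fun i => isClosed_singleton) (fun i j hij => by
      rw [disjoint_singleton]
      exact fun h => hij (hPinj h))
    (fun i x hx => by
      rw [mem_singleton_iff.1 hx]
      exact hPcrit i)
    (fun φ hφ => ⟨fun i t => by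
        rw [image_singleton, hfix φ hφ i t], fun i => ⟨P i, rfl, fun y hy => by
          rw [mem_singleton_iff.1 hy]
          refine subset_closure ⟨0, mem_Ici.2 le_rfl, ?_⟩
          exact hfix φ hφ i 0⟩, fun x hx => by
          have h1 := hx 0
          rw [(hφ x).1] at h1
          obtain ⟨i, hi⟩ := hPall x h1
          exact ⟨i, hi.symm⟩⟩) U hU haU
  refine ⟨Y, hYU, Ha, hHar, hHas, hYh, fun x hx => (hYX x hx).trans (hcrit x hx), _, P, hPinj,
    fun x => ⟨hPall x, ?_⟩, fun ψ hψ => ?_⟩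
  · rintro ⟨i, rfl⟩
    exact hPcrit i
  obtain ⟨h1, -, h3, h4⟩ := hY ψ hψ
  refine ⟨fun i t => ?_, fun x => ?_, h4⟩
  · have h5 := h1 i t
    rw [image_singleton] at h5
    exact singleton_injective h5
  · obtain ⟨i, hi⟩ := h3 x
    refine ⟨i, ?_⟩
    rw [(nhds_basis_opens (P i)).tendsto_right_iff]
    rintro O ⟨hPO, hO⟩
    obtain ⟨T, hT⟩ := eventually_mem_of_omega_subset hO (hi.trans (singleton_subset_iff.2 hPO))
    exact eventually_atTop.2 ⟨T, hT⟩

/-- **The fields `A dH`.** -/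
theorem approx_of_form {r : ℕ∞} (hr : 1 ≤ r)
    {A : CoMap n N} (hA : IsCr r A)
    (hpos : ∀ (x : N) (ξ : V n →ₗ[ℝ] ℝ), 0 ≤ ξ (A x ξ)) {H : N → ℝ}
    (hH : ContMDiff (𝓡 n) 𝓘(ℝ, ℝ) ((r + 1 : ℕ∞) : ℕ∞ω) H) (X : VField n N r)
    (hX : ∀ x, X.fld x = A x (diff n H x))
    (U : Set (VField n N r)) (hU : IsOpen[crTopology n N r] U) (hXU : X ∈ U) :
    ∃ Y ∈ U, ∃ (m : ℕ) (P : Fin m → N), Function.Injective P ∧
      ∀ ψ, IsFlow (fun x => Y x) ψ → (∀ i t, ψ (P i) t = P i) ∧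
        (∀ x, ∃ i, Tendsto (ψ x) atTop (𝓝 (P i))) ∧
        ∀ (_ : MeasurableSpace N) (μ : Measure N), FiniteAttractors μ ψ := by
  obtain ⟨Y, hYU, h, -, -, -, -, m, P, hP, -, hY⟩ :=
    approx_of_form_aff hr hA hpos hH X hX U (affOpen_of_isOpen hU) hXU
  exact ⟨Y, hYU, m, P, hP, hY⟩

end Pool.Agent.W5h74.FL
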