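import Mathlib

/-!
# Flows of vector fields on closed manifolds, and their attractors: definitions

`V n` is `ℝⁿ`. Manifolds are modelled on `V n` (`𝓡 n`). Author: helper74.
-/

set_option autoImplicit false

open scoped Manifold ContDiff Topology
open Filter Set MeasureTheory

namespace Pool.Agent.W5h74.FL

/-- `ℝⁿ` -/
abbrev V (n : ℕ) := EuclideanSpace ℝ (Fin n)

section fields

variable (n : ℕ) (N : Type*) [TopologicalSpace N] [ChartedSpace (V n) N] [IsManifold (𝓡 n) ∞ N]

instance (priority := 50) isManifold_one : IsManifold (𝓡 n) 1 N :=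
  IsManifold.of_le (n := ∞) (by exact_mod_cast le_top)

/-- `χ^r(N)`, the space of the vector fields of class `C^r` on the manifold `N`. -/
abbrev VField (r : ℕ∞) :=
  ContMDiffSection (𝓡 n) (V n) (r : ℕ∞ω) (TangentSpace (𝓡 n) : N → Type _)

variable {n N}

variable (n) in
/-- The derivative of the map `F : N → E` at `x`, a linear map on the tangent space of `N` at `x`
(which is `V n` in Mathlib: `TangentSpace (𝓡 n) x = V n`). -/
noncomputable def diff {E : Type*} [NormedAddCommGroup E] [NormedSpace ℝ E] (F : N → E) (x : N) :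
    V n →ₗ[ℝ] E :=
  ContinuousLinearMap.toLinearMap (M := V n) (M₂ := E) (mfderiv (𝓡 n) 𝓘(ℝ, E) F x)

/-- The vector field `X` in the coordinates of the chart `φ` at the point `c`:
`y ↦ Dφ(x) X(x)`, `x = φ⁻¹(y)`, for `y` in the image of `φ`. -/
noncomputable def inChart (c : N) (X : (x : N) → TangentSpace (𝓡 n) x) (y : V n) : V n :=
  diff n (extChartAt (𝓡 n) c) ((extChartAt (𝓡 n) c).symm y) (X ((extChartAt (𝓡 n) c).symm y))

/-- The derivative of order `m` of the vector field `X` at the point `x`, in the chart at `c`. -/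
noncomputable def dv {r : ℕ∞} (c : N) (m : ℕ) (X : VField n N r) (x : N) :
    (V n) [×m]→L[ℝ] (V n) :=
  iteratedFDeriv ℝ m (inChart c (fun x => X x)) (extChartAt (𝓡 n) c x)

variable (n N)

/-- The `C^r` topology on the space `χ^r(N)` of vector fields of class `C^r` on the closed manifold
`N`: it is generated by the sets of all `Y` such that in the chart at `c`, on the compact set `K`
contained in the domain of the chart, the derivatives up to the order `k`, `k ≤ r` finite, differ
from those of `X` by less than `ε`. -/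
@[instance_reducible]
def crTopology (r : ℕ∞) : TopologicalSpace (VField n N r) :=
  TopologicalSpace.generateFrom {S | ∃ (c : N) (K : Set N) (k : ℕ) (ε : ℝ) (X : VField n N r),
    IsCompact K ∧ K ⊆ (extChartAt (𝓡 n) c).source ∧ (k : ℕ∞) ≤ r ∧
    S = {Y | ∀ x ∈ K, ∀ m ≤ k, ‖dv c m Y x - dv c m X x‖ < ε}}

variable {n N}

/-- The vector `X(x)`, for all `x`. -/
noncomputable abbrev VField.fld {r : ℕ∞} (X : VField n N r) (x : N) : TangentSpace (𝓡 n) x := X x

/-- `φ` is the flow of `X`: `φ x` is the integral curve of `X` through `x`, for all `x`. (On a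
closed manifold every vector field of class `C^r`, `r ≥ 1`, has exactly one flow.) -/
def IsFlow (X : (x : N) → TangentSpace (𝓡 n) x) (φ : N → ℝ → N) : Prop :=
  ∀ x, φ x 0 = x ∧ IsMIntegralCurve (I := 𝓡 n) (φ x) X

/-- The derivative `X h` of the function `h` in the direction of the vector field `X`. -/
noncomputable def dirDeriv (X : (x : N) → TangentSpace (𝓡 n) x) (h : N → ℝ) (x : N) : ℝ :=
  diff n h x (X x)

variable (n) in
/-- `x` is a critical point of `h`. -/
def IsCrit (h : N → ℝ) (x : N) : Prop := diff n h x = 0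

end fields

section attractors

variable {N : Type*} [TopologicalSpace N]

/-- The `ω`-limit set of the forward orbit of `p`. -/
def omegaLim (φ : N → ℝ → N) (p : N) : Set N := {q | ∀ U ∈ 𝓝 q, ∀ T : ℝ, ∃ t ≥ T, φ p t ∈ U}

/-- `Λ` is an attractor of the flow `φ`: it is invariant, it contains a point whose forward orbit is
dense in `Λ`, and its basin `{p | ω(p) ⊆ Λ}` has positive measure. -/
def IsAttractor [MeasurableSpace N] (μ : Measure N) (φ : N → ℝ → N) (Λ : Set N) : Prop :=
  (∀ t, (fun x => φ x t) '' Λ = Λ) ∧ (∃ x ∈ Λ, Λ ⊆ closure (φ x '' Ici 0)) ∧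
    0 < μ {p | omegaLim φ p ⊆ Λ}

/-- The flow `φ` has finitely many attractors whose basins cover the space up to a null set. -/
def FiniteAttractors [MeasurableSpace N] (μ : Measure N) (φ : N → ℝ → N) : Prop :=
  ∃ (k : ℕ) (Λ : Fin k → Set N), (∀ i, IsAttractor μ φ (Λ i)) ∧
    μ {p | ∀ i, ¬ omegaLim φ p ⊆ Λ i} = 0

end attractors

end Pool.Agent.W5h74.FL
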