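import Pool.Agent.W5h74.FL.Defs
import Pool.Agent.W5h74.FL.Flow

/-!
# `ω`-limit sets of flows with a weak Lyapunov function
-/

set_option autoImplicit false
set_option linter.unusedSectionVars false

open scoped Manifold ContDiff Topology
open Filter Set MeasureTheory

namespace Pool.Agent.W5h74.FL

universe u

section top

variable {N : Type u} [TopologicalSpace N] {φ : N → ℝ → N}

lemma mem_omega_iff {p q : N} : q ∈ omegaLim φ p ↔ MapClusterPt q atTop (φ p) := by
  rw [mapClusterPt_iff_frequently]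
  refine forall₂_congr fun U hU => ?_
  rw [frequently_atTop]

lemma omega_nonempty [CompactSpace N] (p : N) : (omegaLim φ p).Nonempty := by
  obtain ⟨q, hq⟩ := exists_clusterPt_of_compactSpace (map (φ p) atTop)
  exact ⟨q, mem_omega_iff.2 hq⟩

/-- The orbit is eventually in every open set which contains the `ω`-limit set. -/
lemma eventually_mem_of_omega_subset [CompactSpace N] {p : N} {U : Set N} (hU : IsOpen U)
    (h : omegaLim φ p ⊆ U) : ∃ T : ℝ, ∀ t ≥ T, φ p t ∈ U := by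
  by_contra hcon
  push Not at hcon
  have h1 : ∃ᶠ t in atTop, φ p t ∈ Uᶜ := frequently_atTop.2 fun T => hcon T
  have hK : IsCompact Uᶜ := hU.isClosed_compl.isCompact
  obtain ⟨q, hq, hq2⟩ := hK.exists_mapClusterPt_of_frequently h1
  exact hq (h (mem_omega_iff.2 hq2))

/-- An `ω`-limit set contained in the union of finitely many disjoint closed sets is contained in one
of them. -/
lemma omega_subset_one [CompactSpace N] [T2Space N] {p : N} (hc : Continuous (φ p)) {m : ℕ}
    {M : Fin m → Set N} (hcl : ∀ i, IsClosed (M i)) (hdis : ∀ i j, i ≠ j → Disjoint (M i) (M j))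
    (h : omegaLim φ p ⊆ ⋃ i, M i) : ∃ i, omegaLim φ p ⊆ M i := by
  obtain ⟨q, hq⟩ := omega_nonempty (φ := φ) p
  obtain ⟨i, hi⟩ := mem_iUnion.1 (h hq)
  refine ⟨i, fun q' hq' => ?_⟩
  obtain ⟨j, hj⟩ := mem_iUnion.1 (h hq')
  by_cases hij : j = i
  · rw [← hij]; exact hj
  exfalso
  have hcl2 : IsClosed (⋃ j ∈ {j : Fin m | j ≠ i}, M j) :=
    (Set.toFinite _).isClosed_biUnion fun j _ => hcl j
  have hd : Disjoint (M i) (⋃ j ∈ {j : Fin m | j ≠ i}, M j) := by
    rw [disjoint_iUnion₂_right]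
    intro j hj
    exact hdis i j (Ne.symm hj)
  obtain ⟨U, W, hU, hW, hMU, hMW, hUW⟩ := normal_separation (hcl i) hcl2 hd
  have h1 : omegaLim φ p ⊆ U ∪ W := by
    intro z hz
    obtain ⟨k, hk⟩ := mem_iUnion.1 (h hz)
    by_cases hki : k = i
    · rw [hki] at hk
      exact Or.inl (hMU hk)
    · exact Or.inr (hMW (mem_iUnion₂.2 ⟨k, hki, hk⟩))
  obtain ⟨T, hT⟩ := eventually_mem_of_omega_subset (hU.union hW) h1
  have hs : IsPreconnected (φ p '' Ici T) := isPreconnected_Ici.image _ hc.continuousOn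
  have hsub : φ p '' Ici T ⊆ U ∪ W := by
    rintro _ ⟨t, ht, rfl⟩
    exact hT t ht
  have hne : (φ p '' Ici T ∩ U).Nonempty := by
    obtain ⟨t, ht, htU⟩ := hq U (hU.mem_nhds (hMU hi)) T
    exact ⟨φ p t, ⟨t, ht, rfl⟩, htU⟩
  have h2 := hs.subset_left_of_subset_union hU hW hUW hsub hne
  obtain ⟨t, ht, htW⟩ := hq' W (hW.mem_nhds (hMW (mem_iUnion₂.2 ⟨j, hij, hj⟩))) T
  exact (disjoint_left.1 hUW) (h2 ⟨t, ht, rfl⟩) htW

/-- Finiteness of attractors from a finite list of transitive sets which contain all `ω`-limit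
sets. -/
theorem finite_of_cover {m : ℕ} (M : Fin m → Set N)
    (hinv : ∀ i t, (fun x => φ x t) '' M i = M i)
    (htr : ∀ i, ∃ x ∈ M i, M i ⊆ closure (φ x '' Ici 0))
    (hcov : ∀ p, ∃ i, omegaLim φ p ⊆ M i) [MeasurableSpace N] (μ : Measure N) :
    FiniteAttractors μ φ := by
  classical
  let S : Type := {i : Fin m // 0 < μ {p | omegaLim φ p ⊆ M i}}
  let e : Fin (Fintype.card S) ≃ S := (Fintype.equivFin S).symm
  refine ⟨Fintype.card S, fun j => M (e j).1, fun j => ⟨hinv _, htr _, (e j).2⟩, ?_⟩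
  have h1 : {p | ∀ j, ¬ omegaLim φ p ⊆ M (e j).1} ⊆
      ⋃ i ∈ {i : Fin m | ¬ 0 < μ {p | omegaLim φ p ⊆ M i}}, {p | omegaLim φ p ⊆ M i} := by
    intro p hp
    obtain ⟨i, hi⟩ := hcov p
    refine mem_iUnion₂.2 ⟨i, ?_, hi⟩
    intro hpos
    have h2 := hp (e.symm ⟨i, hpos⟩)
    rw [Equiv.apply_symm_apply] at h2
    exact h2 hi
  refine measure_mono_null h1 ?_
  refine (measure_biUnion_null_iff (Set.to_countable _)).2 fun i hi => ?_
  exact nonpos_iff_eq_zero.1 (not_lt.1 hi)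

end top

section flow

variable {n : ℕ} {N : Type u} [TopologicalSpace N] [T2Space N] [CompactSpace N]
  [ChartedSpace (V n) N] [IsManifold (𝓡 n) ∞ N]

variable {X : (x : N) → TangentSpace (𝓡 n) x}
  (hX : ContMDiff (𝓡 n) (𝓡 n).tangent 1 (fun x => (⟨x, X x⟩ : TangentBundle (𝓡 n) N)))
  {φ : N → ℝ → N} (hφ : IsFlow X φ)

include hX hφ in
lemma flow_continuous : Continuous fun p : N × ℝ => φ p.1 p.2 :=
  (contMDiff_flow hX (fun x => (hφ x).1) (fun x => (hφ x).2)).continuous

include hX hφ in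
lemma isFlow_add (x : N) (s t : ℝ) : φ x (s + t) = φ (φ x s) t :=
  flow_add hX (fun x => (hφ x).1) (fun x => (hφ x).2) x s t

include hX hφ in
lemma flow_cont_t (t : ℝ) : Continuous fun x => φ x t :=
  (flow_continuous hX hφ).comp (continuous_id.prodMk continuous_const)

include hX hφ in
lemma flow_cont_x (x : N) : Continuous (φ x) :=
  (flow_continuous hX hφ).comp (continuous_const.prodMk continuous_id)

/-- The derivative of a function along an integral curve. -/
lemma hasDerivAt_along {X : (x : N) → TangentSpace (𝓡 n) x} {γ : ℝ → N}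
    (hγ : IsMIntegralCurve (I := 𝓡 n) γ X) {h : N → ℝ} (hh : MDifferentiable (𝓡 n) 𝓘(ℝ, ℝ) h)
    (t : ℝ) : HasDerivAt (fun s => h (γ s)) (dirDeriv X h (γ t)) t := by
  have h1 := HasMFDerivAt.comp t (g := h) (f := γ) (hh (γ t)).hasMFDerivAt (hγ t)
  have h2 : HasFDerivAt (fun s => h (γ s)) (show ℝ →L[ℝ] ℝ from
      (mfderiv (𝓡 n) 𝓘(ℝ, ℝ) h (γ t)).comp ((1 : ℝ →L[ℝ] ℝ).smulRight (X (γ t)))) t :=
    hasMFDerivAt_iff_hasFDerivAt.1 h1
  refine h2.hasDerivAt.congr_deriv ?_
  show (mfderiv (𝓡 n) 𝓘(ℝ, ℝ) h (γ t)) ((1 : ℝ) • X (γ t)) = _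
  rw [one_smul]
  rfl

lemma monotone_along {X : (x : N) → TangentSpace (𝓡 n) x} {γ : ℝ → N}
    (hγ : IsMIntegralCurve (I := 𝓡 n) γ X) {h : N → ℝ} (hh : MDifferentiable (𝓡 n) 𝓘(ℝ, ℝ) h)
    (hm : ∀ x, 0 ≤ dirDeriv X h x) : Monotone (fun s => h (γ s)) := by
  refine monotone_of_deriv_nonneg (fun t => (hasDerivAt_along hγ hh t).differentiableAt) fun t => ?_
  rw [(hasDerivAt_along hγ hh t).deriv]
  exact hm _

include hX hφ in
/-- The `ω`-limit sets consist of orbits on which `h` is constant. -/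
lemma omega_const {h : N → ℝ} (hh : MDifferentiable (𝓡 n) 𝓘(ℝ, ℝ) h)
    (hm : ∀ x, 0 ≤ dirDeriv X h x) {p q : N} (hq : q ∈ omegaLim φ p) (s : ℝ) :
    h (φ q s) = h q := by
  have hc : Continuous h := hh.continuous
  have hmono := monotone_along (hφ p).2 hh hm
  -- every value of `h ∘ φ_p` is at most the value at any `ω`-limit point
  have h1 : ∀ q ∈ omegaLim φ p, ∀ t, h (φ p t) ≤ h q := by
    intro q hq t
    by_contra hlt
    push Not at hlt
    obtain ⟨T, hT, hT2⟩ := hq {y | h y < h (φ p t)} ((isOpen_lt hc continuous_const).mem_nhds hlt) t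
    have := hmono hT
    simp only [mem_ofPred_eq] at hT2
    simp only at this
    linarith
  have h2 : ∀ q ∈ omegaLim φ p, ∀ q' ∈ omegaLim φ p, h q ≤ h q' := by
    intro q hq q' hq'
    by_contra hlt
    push Not at hlt
    obtain ⟨T, -, hT2⟩ := hq {y | h q' < h y} ((isOpen_lt continuous_const hc).mem_nhds hlt) 0
    have := h1 q' hq' T
    simp only [mem_ofPred_eq] at hT2
    linarith
  have h3 : φ q s ∈ omegaLim φ p := by
    intro U hU T
    have h4 : {y | φ y s ∈ U} ∈ 𝓝 q := (flow_cont_t hX hφ s).continuousAt.preimage_mem_nhds hU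
    obtain ⟨t, ht, ht2⟩ := hq _ h4 (T - s)
    refine ⟨t + s, by linarith, ?_⟩
    rw [isFlow_add hX hφ]
    exact ht2
  exact le_antisymm (h2 _ h3 _ hq) (h2 _ hq _ h3)

include hX hφ in
/-- If `X h > 0` off the critical points then the `ω`-limit sets consist of orbits of critical
points. -/
lemma omega_crit {h : N → ℝ} (hh : MDifferentiable (𝓡 n) 𝓘(ℝ, ℝ) h)
    (hm : ∀ x, ¬ IsCrit n h x → 0 < dirDeriv X h x) {p q : N} (hq : q ∈ omegaLim φ p) (s : ℝ) :
    IsCrit n h (φ q s) := by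
  have hm0 : ∀ x, 0 ≤ dirDeriv X h x := by
    intro x
    by_cases hx : IsCrit n h x
    · have : dirDeriv X h x = 0 := by
        unfold dirDeriv
        rw [show diff n h x = 0 from hx]
        rfl
      exact this.ge
    · exact (hm x hx).le
  by_contra hcon
  have h1 := hasDerivAt_along (hφ q).2 hh s
  have h2 : (fun t => h (φ q t)) = fun _ => h q := by
    ext t
    exact omega_const hX hφ hh hm0 hq t
  rw [h2] at h1
  have h3 := h1.unique (hasDerivAt_const s (h q))
  exact (hm _ hcon).ne' h3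

end flow

end Pool.Agent.W5h74.FL
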