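import Pool.Agent.W5h74.FL.Defs

/-!
# Perturbations of `C¹` maps `ℝⁿ → ℝⁿ` to maps with nondegenerate zeros
-/

set_option autoImplicit false
set_option linter.unusedSectionVars false

open scoped ContDiff Topology
open Filter Set MeasureTheory

namespace Pool.Agent.W5h74.FL

variable {ι : Type*} [Fintype ι] {n : ℕ}

/-- the family `u + ∑ a_j w_j` -/
noncomputable def fam (u : V n → V n) (w : ι → V n → V n) (a : ι → ℝ) (y : V n) : V n :=
  u y + ∑ j, a j • w j y

lemma fam_contDiffOn {u : V n → V n} {w : ι → V n → V n} {O : Set (V n)}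
    (hu : ContDiffOn ℝ 1 u O) (hw : ∀ j, ContDiffOn ℝ 1 (w j) O) (a : ι → ℝ) :
    ContDiffOn ℝ 1 (fam u w a) O := by
  have h : ContDiffOn ℝ 1 (fun y => ∑ j, a j • w j y) O :=
    ContDiffOn.sum fun j _ => (contDiffOn_const (c := a j)).smul (f := fun _ => a j) (hw j)
  exact hu.add h

lemma fam_fderiv {u : V n → V n} {w : ι → V n → V n} {O : Set (V n)} (hO : IsOpen O)
    (hu : ContDiffOn ℝ 1 u O) (hw : ∀ j, ContDiffOn ℝ 1 (w j) O) (a : ι → ℝ) {y : V n}
    (hy : y ∈ O) : fderiv ℝ (fam u w a) y = fderiv ℝ u y + ∑ j, a j • fderiv ℝ (w j) y := by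
  have h1 : DifferentiableAt ℝ u y :=
    (hu.contDiffAt (hO.mem_nhds hy)).differentiableAt one_ne_zero
  have h2 : ∀ j, DifferentiableAt ℝ (w j) y := fun j =>
    ((hw j).contDiffAt (hO.mem_nhds hy)).differentiableAt one_ne_zero
  have h3 : HasFDerivAt (fam u w a) (fderiv ℝ u y + ∑ j, a j • fderiv ℝ (w j) y) y := by
    unfold fam
    exact h1.hasFDerivAt.add (HasFDerivAt.fun_sum fun j _ => (h2 j).hasFDerivAt.const_smul (a j))
  exact h3.fderiv

/-- `a` is good on `L`: the zeros of `u_a` in `L` are nondegenerate. -/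
def Good (u : V n → V n) (w : ι → V n → V n) (L : Set (V n)) : Set (ι → ℝ) :=
  {a | ∀ y ∈ L, fam u w a y ≠ 0 ∨ (fderiv ℝ (fam u w a) y).det ≠ 0}

lemma isOpen_good {u : V n → V n} {w : ι → V n → V n} {O L : Set (V n)} (hO : IsOpen O)
    (hL : IsCompact L) (hLO : L ⊆ O) (hu : ContDiffOn ℝ 1 u O) (hw : ∀ j, ContDiffOn ℝ 1 (w j) O) :
    IsOpen (Good u w L) := by
  rw [isOpen_iff_eventually]
  intro a₀ ha₀
  refine hL.eventually_forall_of_forall_eventually (P := fun (a : ι → ℝ) (y : V n) =>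
    fam u w a y ≠ 0 ∨ (fderiv ℝ (fam u w a) y).det ≠ 0) fun y hy => ?_
  have hc : ∀ {E : Type} [NormedAddCommGroup E] [NormedSpace ℝ E] (Z : V n → E), ContinuousOn Z O →
      ContinuousOn (fun q : (ι → ℝ) × V n => Z q.2) (univ ×ˢ O) :=
    fun Z hZ => hZ.comp continuousOn_snd (fun q hq => hq.2)
  have hca : ∀ j, ContinuousOn (fun q : (ι → ℝ) × V n => q.1 j) (univ ×ˢ O) := fun j =>
    ((continuous_apply j).comp continuous_fst).continuousOn
  have h1 : ContinuousOn (fun q : (ι → ℝ) × V n => fam u w q.1 q.2) (univ ×ˢ O) := by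
    unfold fam
    exact (hc u hu.continuousOn).add
      (continuousOn_finsetSum _ fun j _ => (hca j).smul (hc (w j) (hw j).continuousOn))
  have h2 : ContinuousOn (fun q : (ι → ℝ) × V n =>
      (fderiv ℝ u q.2 + ∑ j, q.1 j • fderiv ℝ (w j) q.2).det) (univ ×ˢ O) := by
    refine ContinuousLinearMap.continuous_det.comp_continuousOn ?_
    exact (hc _ (hu.continuousOn_fderiv_of_isOpen hO le_rfl)).add
      (continuousOn_finsetSum _ fun j _ => (hca j).smul
        (hc _ ((hw j).continuousOn_fderiv_of_isOpen hO le_rfl)))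
  have hn : univ ×ˢ O ∈ 𝓝 (a₀, y) := by
    rw [nhds_prod_eq]
    exact prod_mem_prod univ_mem (hO.mem_nhds (hLO hy))
  rcases ha₀ y hy with h3 | h3
  · have h4 := (h1.continuousAt hn).eventually_ne h3
    filter_upwards [h4] with q hq
    exact Or.inl hq
  · rw [fam_fderiv hO hu hw a₀ (hLO hy)] at h3
    have h4 := (h2.continuousAt hn).eventually_ne h3
    filter_upwards [h4, hn] with q hq hq2
    right
    rw [fam_fderiv hO hu hw q.1 hq2.2]
    exact hq

lemma dense_good {u : V n → V n} {w : ι → V n → V n} {O : Set (V n)} (hO : IsOpen O)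
    (hu : ContDiffOn ℝ 1 u O) (hw : ∀ j, ContDiffOn ℝ 1 (w j) O) (e : Fin n → ι)
    (hwe : ∀ i, ∀ y ∈ O, w (e i) y = EuclideanSpace.single i 1) : Dense (Good u w O) := by
  classical
  intro a₀
  set u₀ := fam u w a₀ with hu₀
  have hu₀c : ContDiffOn ℝ 1 u₀ O := fam_contDiffOn hu hw a₀
  -- the critical values
  have hnull : volume (u₀ '' {y ∈ O | (fderiv ℝ u₀ y).det = 0}) = 0 := by
    refine addHaar_image_eq_zero_of_det_fderivWithin_eq_zero volume
      (f' := fun y => fderiv ℝ u₀ y) (fun y hy => ?_) (fun y hy => hy.2)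
    exact ((hu₀c.contDiffAt (hO.mem_nhds hy.1)).differentiableAt
      one_ne_zero).hasFDerivAt.hasFDerivWithinAt
  have hdense : Dense (u₀ '' {y ∈ O | (fderiv ℝ u₀ y).det = 0})ᶜ := by
    refine MeasureTheory.Measure.dense_of_ae (μ := volume) ?_
    exact measure_eq_zero_iff_ae_notMem.1 hnull
  let f : V n → (ι → ℝ) := fun b => a₀ - ∑ i, b i • (Pi.single (e i) 1 : ι → ℝ)
  have hf : Continuous f := by
    refine continuous_const.sub (continuous_finsetSum _ fun i _ => ?_)
    have h : Continuous fun b : V n => b i := (PiLp.continuous_apply 2 _ i)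
    exact h.smul continuous_const
  have hf0 : f 0 = a₀ := by simp [f]
  have hfam : ∀ b, ∀ y ∈ O, fam u w (f b) y = u₀ y - b := by
    intro b y hy
    have h1 : ∀ j, (f b) j • w j y = a₀ j • w j y -
        ∑ i, (b i * (Pi.single (e i) (1 : ℝ) : ι → ℝ) j) • w j y := by
      intro j
      simp only [f, Pi.sub_apply, Finset.sum_apply, Pi.smul_apply, smul_eq_mul, sub_smul,
        Finset.sum_smul]
    have h2 : ∑ j, (f b) j • w j y = ∑ j, a₀ j • w j y - b := by
      rw [Finset.sum_congr rfl fun j _ => h1 j, Finset.sum_sub_distrib]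
      congr 1
      rw [Finset.sum_comm]
      have h3 : ∀ i, ∑ j, (b i * (Pi.single (e i) (1 : ℝ) : ι → ℝ) j) • w j y =
          b i • EuclideanSpace.single i 1 := by
        intro i
        rw [Finset.sum_eq_single (e i)]
        · rw [Pi.single_eq_same, mul_one, hwe i y hy]
        · intro j _ hj
          rw [Pi.single_eq_of_ne hj, mul_zero, zero_smul]
        · intro h
          exact absurd (Finset.mem_univ _) h
      rw [Finset.sum_congr rfl fun i _ => h3 i]
      ext k
      simp [Pi.single_apply]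
    show u y + ∑ j, (f b) j • w j y = (u y + ∑ j, a₀ j • w j y) - b
    rw [h2, add_sub_assoc]
  rw [← hf0]
  refine map_mem_closure hf (hdense 0) ?_
  intro b hb y hy
  by_contra hcon
  push Not at hcon
  obtain ⟨h1, h2⟩ := hcon
  apply hb
  refine ⟨y, ⟨hy, ?_⟩, ?_⟩
  · have h3 : fam u w (f b) =ᶠ[𝓝 y] fun z => u₀ z - b := by
      filter_upwards [hO.mem_nhds hy] with z hz
      exact hfam b z hz
    rw [h3.fderiv_eq, fderiv_sub_const] at h2
    exact h2
  · rw [hfam b y hy] at h1
    exact sub_eq_zero.1 h1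

/-- Nondegenerate zeros are isolated. -/
lemma isolated_of_det {u : V n → V n} {y : V n} (hu : DifferentiableAt ℝ u y)
    (hd : (fderiv ℝ u y).det ≠ 0) : ∀ᶠ z in 𝓝[≠] y, u z ≠ 0 := by
  let A := (fderiv ℝ u y).toContinuousLinearEquivOfDetNeZero hd
  have hA : (A : V n →L[ℝ] V n) = fderiv ℝ u y := by
    ext1 z
    simp [A]
  refine hu.hasFDerivAt.eventually_ne ?_
  rw [← hA]
  exact ⟨_, A.antilipschitz⟩

end Pool.Agent.W5h74.FL
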