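import Pool.Agent.W5h74.FL.Dyn
import Pool.Agent.W5h74.FL.Frame

/-!
# Fields which do not decrease a function
-/

set_option autoImplicit false
set_option linter.unusedSectionVars false

open scoped Manifold ContDiff Topology
open Filter Set MeasureTheory

namespace Pool.Agent.W5h74.FL

universe u

variable {n : ℕ} {N : Type u} [TopologicalSpace N] [T2Space N] [CompactSpace N]
  [ChartedSpace (V n) N] [IsManifold (𝓡 n) ∞ N]

lemma VField.c1 {r : ℕ∞} (hr : 1 ≤ r) (X : VField n N r) :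
    ContMDiff (𝓡 n) (𝓡 n).tangent 1 (fun x => (⟨x, X x⟩ : TangentBundle (𝓡 n) N)) :=
  X.contMDiff.of_le (by exact_mod_cast hr)

/-- A vector field of class `C^r` has exactly one flow. -/
theorem VField.exists_unique_flow {r : ℕ∞} (hr : 1 ≤ r) (X : VField n N r) :
    ∃ φ : N → ℝ → N, IsFlow (fun x => X x) φ ∧ ∀ ψ, IsFlow (fun x => X x) ψ → ψ = φ := by
  obtain ⟨φ, h0, hφ⟩ := exists_flow (X.c1 hr)
  refine ⟨φ, fun x => ⟨h0 x, hφ x⟩, fun ψ hψ => ?_⟩
  funext x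
  exact flow_unique (X.c1 hr) (hψ x).2 (hφ x) ((hψ x).1.trans (h0 x).symm)

/-- Two fields which agree along an integral curve of one of them. -/
lemma curve_of_eq {X Y : (x : N) → TangentSpace (𝓡 n) x} {γ : ℝ → N}
    (hγ : IsMIntegralCurve (I := 𝓡 n) γ X) (h : ∀ t, X (γ t) = Y (γ t)) :
    IsMIntegralCurve (I := 𝓡 n) γ Y := by
  intro t
  have := hγ t
  rw [h t] at this
  exact this

/-- `U` is open along affine families of vector fields. -/
def AffOpen {r : ℕ∞} (U : Set (VField n N r)) : Prop :=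
  ∀ X ∈ U, ∀ (p : ℕ) (W : Fin p → VField n N r),
    ∀ᶠ a in 𝓝 (0 : Fin p → ℝ), X + ∑ j, a j • W j ∈ U

lemma affOpen_of_isOpen {r : ℕ∞} {U : Set (VField n N r)} (hU : IsOpen[crTopology n N r] U) :
    AffOpen U := by
  intro X hX p W
  have h1 : IsOpen ((fun a : Fin p → ℝ => X + ∑ j, a j • W j) ⁻¹' U) :=
    @IsOpen.preimage _ _ _ (crTopology n N r) _ (continuous_affine X W) _ hU
  refine h1.mem_nhds ?_
  simpa using hX

lemma AffOpen.inter {r : ℕ∞} {U U' : Set (VField n N r)} (h : AffOpen U) (h' : AffOpen U') :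
    AffOpen (U ∩ U') :=
  fun X hX p W => (h X hX.1 p W).and (h' X hX.2 p W)

/-- The conclusion of the theorems: every neighbourhood of `X` contains a field `Y` whose flow
`φ` has all `ω`-limit sets in finitely many invariant transitive sets, and finitely many
attractors. -/
theorem approx_of_weak_lyapunov_aff {r : ℕ∞} (hr : 1 ≤ r) (X : VField n N r) {h : N → ℝ}
    (hh : ContMDiff (𝓡 n) 𝓘(ℝ, ℝ) ((r + 1 : ℕ∞) : ℕ∞ω) h)
    (hm : ∀ x, 0 ≤ dirDeriv (fun x => X x) h x)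
    {m : ℕ} (M : Fin m → Set N) (hcl : ∀ i, IsClosed (M i))
    (hdis : ∀ i j, i ≠ j → Disjoint (M i) (M j)) (hC : ∀ i, ∀ x ∈ M i, IsCrit n h x)
    (hflow : ∀ φ, IsFlow (fun x => X x) φ →
      (∀ i t, (fun x => φ x t) '' M i = M i) ∧
      (∀ i, ∃ x ∈ M i, M i ⊆ closure (φ x '' Ici 0)) ∧
      ∀ x, (∀ t, IsCrit n h (φ x t)) → ∃ i, x ∈ M i)
    (U : Set (VField n N r)) (hU : AffOpen U) (hXU : X ∈ U) :
    ∃ Y ∈ U, (∀ x, ¬ IsCrit n h x → 0 < dirDeriv (fun x => Y x) h x) ∧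
      (∀ x, IsCrit n h x → Y x = X x) ∧
      ∀ ψ, IsFlow (fun x => Y x) ψ → (∀ i t, (fun x => ψ x t) '' M i = M i) ∧
      (∀ i, ∃ x ∈ M i, M i ⊆ closure (ψ x '' Ici 0)) ∧ (∀ p, ∃ i, omegaLim ψ p ⊆ M i) ∧
      ∀ (_ : MeasurableSpace N) (μ : Measure N), FiniteAttractors μ ψ := by
  obtain ⟨p, v, hv⟩ := exists_frame n N r
  let G : VField n N r := gradField v hh
  have hcrit : ∀ x, IsCrit n h x → G x = 0 := fun x hx => gradField_crit v hh hx
  -- the approximating field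
  have hU' : {a : Fin 1 → ℝ | X + ∑ j, a j • (fun _ : Fin 1 => G) j ∈ U} ∈ 𝓝 (0 : Fin 1 → ℝ) :=
    hU X hXU 1 (fun _ => G)
  obtain ⟨ε, hε, hεU⟩ : ∃ ε : ℝ, 0 < ε ∧ X + ε • G ∈ U := by
    have h2 : Tendsto (fun s : ℝ => (fun _ : Fin 1 => s)) (𝓝[>] 0) (𝓝 (0 : Fin 1 → ℝ)) := by
      have h3 : Continuous (fun s : ℝ => (fun _ : Fin 1 => s)) :=
        continuous_pi fun _ => continuous_id
      exact (h3.tendsto 0).mono_left nhdsWithin_le_nhds
    obtain ⟨ε, hε1, hε2⟩ := ((h2.eventually hU').and self_mem_nhdsWithin).exists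
    refine ⟨ε, hε2, ?_⟩
    simpa using hε1
  obtain ⟨φ, hφ, -⟩ := X.exists_unique_flow hr
  obtain ⟨hinv, htr, hcov⟩ := hflow φ hφ
  have hYX : ∀ x, IsCrit n h x → (X + ε • G) x = X x := by
    intro x hx
    have : (X + ε • G) x = X x + ε • G x := rfl
    rw [this, hcrit x hx, smul_zero, add_zero]
  have hYh : ∀ x, ¬ IsCrit n h x → 0 < dirDeriv (fun x => (X + ε • G) x) h x := by
    intro x hx
    have h1 : dirDeriv (fun x => (X + ε • G) x) h x =
        dirDeriv (fun x => X x) h x + ε * dirDeriv (fun x => G x) h x := by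
      have h2 := dirDeriv_add (fun x => X x) (fun x => ε • G x) h x
      rw [dirDeriv_smul ε (fun x => G x) h x] at h2
      exact h2
    rw [h1]
    have h3 := dirDeriv_gradField_pos hv hh hx
    have h4 := hm x
    have : 0 < ε * dirDeriv (fun x => G x) h x := mul_pos hε h3
    linarith
  refine ⟨X + ε • G, hεU, hYh, hYX, fun ψ hψ => ?_⟩
  have hY1 := (X + ε • G).c1 hr
  have hdiff : MDifferentiable (𝓡 n) 𝓘(ℝ, ℝ) h := hh.mdifferentiable (by
    have : (1 : ℕ∞ω) ≤ ((r + 1 : ℕ∞) : ℕ∞ω) := by exact_mod_cast le_add_self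
    exact (zero_lt_one.trans_le this).ne')
  -- orbits of critical points
  have hφψ : ∀ x, (∀ t, IsCrit n h (φ x t)) → ψ x = φ x := by
    intro x hx
    refine flow_unique hY1 (hψ x).2 (curve_of_eq (hφ x).2 fun t => (hYX _ (hx t)).symm) ?_
    rw [(hψ x).1, (hφ x).1]
  have hψφ : ∀ x, (∀ t, IsCrit n h (ψ x t)) → φ x = ψ x := by
    intro x hx
    refine flow_unique (X.c1 hr) (hφ x).2 (curve_of_eq (hψ x).2 fun t => (hYX _ (hx t))) ?_
    rw [(hψ x).1, (hφ x).1]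
  have hM : ∀ i, ∀ x ∈ M i, ψ x = φ x := by
    intro i x hx
    refine hφψ x fun t => hC i _ ?_
    rw [← hinv i t]
    exact ⟨x, hx, rfl⟩
  have hinv' : ∀ i t, (fun x => ψ x t) '' M i = M i := by
    intro i t
    rw [← hinv i t]
    conv_rhs => rw [← hinv i t]
    refine Set.image_congr fun x hx => ?_
    have hx' : x ∈ M i := by rwa [hinv i t] at hx
    exact congrFun (hM i x hx') t
  have htr' : ∀ i, ∃ x ∈ M i, M i ⊆ closure (ψ x '' Ici 0) := by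
    intro i
    obtain ⟨x, hx, hx2⟩ := htr i
    refine ⟨x, hx, ?_⟩
    rw [hM i x hx]
    exact hx2
  have hcov' : ∀ p, ∃ i, omegaLim ψ p ⊆ M i := by
    intro p
    refine omega_subset_one (flow_cont_x hY1 hψ p) hcl hdis fun q hq => ?_
    have h1 : ∀ t, IsCrit n h (ψ q t) := fun t => omega_crit hY1 hψ hdiff hYh hq t
    have h2 := hψφ q h1
    obtain ⟨i, hi⟩ := hcov q (fun t => by rw [h2]; exact h1 t)
    exact mem_iUnion.2 ⟨i, hi⟩
  exact ⟨hinv', htr', hcov', fun _ μ => finite_of_cover M hinv' htr' hcov' μ⟩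

theorem approx_of_weak_lyapunov {r : ℕ∞} (hr : 1 ≤ r) (X : VField n N r) {h : N → ℝ}
    (hh : ContMDiff (𝓡 n) 𝓘(ℝ, ℝ) ((r + 1 : ℕ∞) : ℕ∞ω) h)
    (hm : ∀ x, 0 ≤ dirDeriv (fun x => X x) h x)
    {m : ℕ} (M : Fin m → Set N) (hcl : ∀ i, IsClosed (M i))
    (hdis : ∀ i j, i ≠ j → Disjoint (M i) (M j)) (hC : ∀ i, ∀ x ∈ M i, IsCrit n h x)
    (hflow : ∀ φ, IsFlow (fun x => X x) φ →
      (∀ i t, (fun x => φ x t) '' M i = M i) ∧
      (∀ i, ∃ x ∈ M i, M i ⊆ closure (φ x '' Ici 0)) ∧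
      ∀ x, (∀ t, IsCrit n h (φ x t)) → ∃ i, x ∈ M i)
    (U : Set (VField n N r)) (hU : IsOpen[crTopology n N r] U) (hXU : X ∈ U) :
    ∃ Y ∈ U, ∀ ψ, IsFlow (fun x => Y x) ψ → (∀ i t, (fun x => ψ x t) '' M i = M i) ∧
      (∀ i, ∃ x ∈ M i, M i ⊆ closure (ψ x '' Ici 0)) ∧ (∀ p, ∃ i, omegaLim ψ p ⊆ M i) ∧
      ∀ (_ : MeasurableSpace N) (μ : Measure N), FiniteAttractors μ ψ := by
  obtain ⟨Y, hYU, -, -, hY⟩ := approx_of_weak_lyapunov_aff hr X hh hm M hcl hdis hC hflow U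
    (affOpen_of_isOpen hU) hXU
  exact ⟨Y, hYU, hY⟩

end Pool.Agent.W5h74.FL
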