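import Pool.Agent.W5h74.FL.FlowR
import Pool.Agent.W5h74.FL.PartA

/-!
# Flows of affine families of vector fields depend on the parameters in a `C^r` way
-/

set_option autoImplicit false
set_option linter.unusedSectionVars false

open scoped Manifold ContDiff Topology
open Filter Set Bundle

namespace Pool.Agent.W5h74.FL

universe u

variable {n : ℕ} {N : Type u} [TopologicalSpace N] [T2Space N] [CompactSpace N]
  [ChartedSpace (V n) N] [IsManifold (𝓡 n) ∞ N] {r : ℕ∞} {p : ℕ}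

/-- the field `X + ∑ a_j W_j` -/
noncomputable def aff (X : VField n N r) (W : Fin p → VField n N r) (a : V p) : VField n N r :=
  X + ∑ j, a j • W j

/-- the field `(0, X_a)` on `ℝ^p × N` -/
noncomputable def bigField (X : VField n N r) (W : Fin p → VField n N r) (q : V p × N) :
    TangentSpace (𝓘(ℝ, V p).prod (𝓡 n)) q :=
  ((0 : V p), (aff X W q.1 q.2 : V n))

lemma aff_apply (X : VField n N r) (W : Fin p → VField n N r) (a : V p) (x : N) :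
    aff X W a x = X x + ∑ j, a j • W j x := by
  have key : ∀ s : Finset (Fin p), (X + ∑ j ∈ s, a j • W j) x = X x + ∑ j ∈ s, a j • W j x := by
    intro s
    induction s using Finset.induction_on with
    | empty => simp
    | insert j s hj ih =>
      rw [Finset.sum_insert hj, Finset.sum_insert hj]
      have e1 : X + (a j • W j + ∑ i ∈ s, a i • W i) = (X + ∑ i ∈ s, a i • W i) + a j • W j := by
        abel
      rw [e1]
      have e2 : ((X + ∑ i ∈ s, a i • W i) + a j • W j) x =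
          (X + ∑ i ∈ s, a i • W i) x + a j • W j x := rfl
      rw [e2, ih]
      abel
  exact key Finset.univ

/-- the map `(a, x) ↦ X_a(x)` -/
lemma contMDiff_aff (X : VField n N r) (W : Fin p → VField n N r) :
    ContMDiff (𝓘(ℝ, V p).prod (𝓡 n)) (𝓡 n).tangent (r : ℕ∞ω)
      (fun q : V p × N => (⟨q.2, aff X W q.1 q.2⟩ : TangentBundle (𝓡 n) N)) := by
  intro q₀
  rw [contMDiffAt_totalSpace]
  refine ⟨contMDiffAt_snd, ?_⟩
  show ContMDiffAt (𝓘(ℝ, V p).prod (𝓡 n)) 𝓘(ℝ, V n) (r : ℕ∞ω) (fun q : V p × N =>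
    ((trivializationAt (V n) (TangentSpace (𝓡 n)) q₀.2) ⟨q.2, aff X W q.1 q.2⟩).2) q₀
  have hsrc : q₀.2 ∈ (chartAt (V n) q₀.2).source := mem_chart_source _ _
  -- the fields in the chart
  have hc : ∀ Z : VField n N r, ContMDiffAt (𝓘(ℝ, V p).prod (𝓡 n)) 𝓘(ℝ, V n) (r : ℕ∞ω)
      (fun q : V p × N => (mfderiv (𝓡 n) 𝓘(ℝ, V n) (extChartAt (𝓡 n) q₀.2) q.2 (Z q.2) : V n)) q₀ := by
    intro Z
    have h1 := (contMDiffAt_iff_chart q₀.2 hsrc (fun x => Z x)).1 (Z.contMDiff _)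
    exact ContMDiffAt.comp (g := (fun x => mfderiv (𝓡 n) 𝓘(ℝ, V n)
      (extChartAt (𝓡 n) q₀.2) x (Z x) : N → V n)) (f := Prod.snd) q₀ h1 contMDiffAt_snd
  have h2 : ContMDiffAt (𝓘(ℝ, V p).prod (𝓡 n)) 𝓘(ℝ, V n) (r : ℕ∞ω) (fun q : V p × N =>
      (mfderiv (𝓡 n) 𝓘(ℝ, V n) (extChartAt (𝓡 n) q₀.2) q.2 (X q.2) : V n) +
      ∑ j, q.1 j • (mfderiv (𝓡 n) 𝓘(ℝ, V n) (extChartAt (𝓡 n) q₀.2) q.2 (W j q.2) : V n)) q₀ := by
    refine (hc X).add ?_
    refine ContMDiffAt.sum fun j _ => ?_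
    have h3 : ContMDiffAt (𝓘(ℝ, V p).prod (𝓡 n)) 𝓘(ℝ, ℝ) (r : ℕ∞ω) (fun q : V p × N => q.1 j) q₀ := by
      have h4 : ContMDiff 𝓘(ℝ, V p) 𝓘(ℝ, ℝ) (r : ℕ∞ω) (fun a : V p => a j) :=
        (EuclideanSpace.proj j : V p →L[ℝ] ℝ).contDiff.contMDiff
      exact (h4.comp contMDiff_fst) q₀
    exact h3.smul (hc (W j))
  refine h2.congr_of_eventuallyEq ?_
  have h5 : ∀ᶠ q : V p × N in 𝓝 q₀, q.2 ∈ (chartAt (V n) q₀.2).source :=
    continuousAt_snd.eventually ((chartAt (V n) q₀.2).open_source.mem_nhds hsrc)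
  filter_upwards [h5] with q hq
  rw [trivialization_eq q₀.2 hq]
  rw [aff_apply]
  have h6 := map_add (mfderiv (𝓡 n) 𝓘(ℝ, V n) (extChartAt (𝓡 n) q₀.2) q.2) (X q.2)
    (∑ j, q.1 j • W j q.2)
  have h7 := map_sum (mfderiv (𝓡 n) 𝓘(ℝ, V n) (extChartAt (𝓡 n) q₀.2) q.2)
    (fun j => q.1 j • W j q.2) Finset.univ
  refine h6.trans ?_
  refine congrArg₂ (· + ·) rfl (h7.trans ?_)
  refine Finset.sum_congr rfl fun j _ => ?_
  exact map_smul (mfderiv (𝓡 n) 𝓘(ℝ, V n) (extChartAt (𝓡 n) q₀.2) q.2) _ _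

lemma contMDiff_bigField (X : VField n N r) (W : Fin p → VField n N r) :
    ContMDiff (𝓘(ℝ, V p).prod (𝓡 n)) (𝓘(ℝ, V p).prod (𝓡 n)).tangent (r : ℕ∞ω)
      (fun q : V p × N => (⟨q, bigField X W q⟩ :
        TangentBundle (𝓘(ℝ, V p).prod (𝓡 n)) (V p × N))) := by
  have h1 : ContMDiff (𝓘(ℝ, V p).prod (𝓡 n)) 𝓘(ℝ, V p).tangent (r : ℕ∞ω)
      (fun q : V p × N => (⟨q.1, 0⟩ : TangentBundle 𝓘(ℝ, V p) (V p))) :=
    (contMDiff_zeroSection ℝ (TangentSpace 𝓘(ℝ, V p) : V p → Type _)).comp contMDiff_fst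
  have h2 := h1.prodMk (contMDiff_aff X W)
  exact contMDiff_equivTangentBundleProd_symm.comp h2

/-- the flows of the fields `X_a`, as one flow on `ℝ^p × N` -/
noncomputable def bigFlow (Φ : V p → N → ℝ → N) (q : V p × N) (t : ℝ) : V p × N :=
  (q.1, Φ q.1 q.2 t)

lemma bigFlow_curve (X : VField n N r) (W : Fin p → VField n N r) {Φ : V p → N → ℝ → N}
    (hΦ : ∀ a, IsFlow (aff X W a).fld (Φ a)) (q : V p × N) :
    IsMIntegralCurve (I := 𝓘(ℝ, V p).prod (𝓡 n)) (bigFlow Φ q) (bigField X W) := by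
  intro t
  have h1 : HasMFDerivAt 𝓘(ℝ, ℝ) 𝓘(ℝ, V p) (fun _ : ℝ => q.1) t
      ((1 : ℝ →L[ℝ] ℝ).smulRight (0 : V p)) := by
    refine HasMFDerivAt.congr_mfderiv
      (hasMFDerivAt_const (I := 𝓘(ℝ, ℝ)) (I' := 𝓘(ℝ, V p)) q.1 t) ?_
    refine ContinuousLinearMap.ext fun s => ?_
    exact (smul_zero (A := V p) ((1 : ℝ →L[ℝ] ℝ) s)).symm
  have h2 := (hΦ q.1 q.2).2 t
  have h3 := h1.prodMk h2
  refine HasMFDerivAt.congr_mfderiv h3 ?_
  exact ContinuousLinearMap.ext fun s => rfl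

/-- The flows of an affine family depend on the parameters in a `C^r` way. -/
theorem contMDiff_family (hr : 1 ≤ r) (X : VField n N r) (W : Fin p → VField n N r)
    {Φ : V p → N → ℝ → N} (hΦ : ∀ a, IsFlow (aff X W a).fld (Φ a)) (t : ℝ) :
    ContMDiff (𝓘(ℝ, V p).prod (𝓡 n)) (𝓡 n) (r : ℕ∞ω) (fun q : V p × N => Φ q.1 q.2 t) := by
  have h1 := contMDiff_flow_r (I := 𝓘(ℝ, V p).prod (𝓡 n)) hr (contMDiff_bigField X W)
    (Fl := bigFlow Φ) (fun q => by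
      show (q.1, Φ q.1 q.2 0) = q
      rw [(hΦ q.1 q.2).1]) (bigFlow_curve X W hΦ)
  have h2 : ContMDiff (𝓘(ℝ, V p).prod (𝓡 n)) ((𝓘(ℝ, V p).prod (𝓡 n)).prod 𝓘(ℝ, ℝ)) (r : ℕ∞ω)
      (fun q : V p × N => (q, t)) := contMDiff_id.prodMk contMDiff_const
  exact contMDiff_snd.comp (h1.comp h2)

end Pool.Agent.W5h74.FL
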