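import Pool.Agent.W5h74.FL.PartB

/-!
# Fields which do not decrease a function: the general theorem
-/

set_option autoImplicit false
set_option linter.unusedSectionVars false

open scoped Manifold ContDiff Topology
open Filter Set MeasureTheory

namespace Pool.Agent.W5h74.FL

universe u

variable {n : ℕ} {N : Type u} [TopologicalSpace N] [T2Space N] [CompactSpace N]
  [ChartedSpace (V n) N] [IsManifold (𝓡 n) ∞ N]

lemma isCrit_iff_frame {r : ℕ∞} {p : ℕ} {v : Fin p → VField n N r}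
    (hv : ∀ (x : N) (L : TangentSpace (𝓡 n) x →L[ℝ] ℝ), (∀ j, L (v j x) = 0) → L = 0) {h : N → ℝ}
    {x : N} : IsCrit n h x ↔ ∀ k, dirDeriv (fun x => v k x) h x = 0 := by
  constructor
  · intro hc k
    have h1 : dirDeriv (fun x => v k x) h x = diff n h x (v k x) := rfl
    rw [h1, show diff n h x = 0 from hc]
    rfl
  · intro hk
    exact isCrit_iff_mfderiv.2 (hv x _ fun j => hk j)

/-- The set of critical points is closed. -/
lemma isClosed_crit {r : ℕ∞} {h : N → ℝ}
    (hh : ContMDiff (𝓡 n) 𝓘(ℝ, ℝ) ((r + 1 : ℕ∞) : ℕ∞ω) h) : IsClosed {x | IsCrit n h x} := by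
  obtain ⟨p, v, hv⟩ := exists_frame n N r
  have e : {x | IsCrit n h x} = ⋂ k, {x | dirDeriv (fun x => v k x) h x = 0} := by
    ext x
    simp only [mem_iInter, mem_ofPred_eq]
    exact isCrit_iff_frame hv
  rw [e]
  refine isClosed_iInter fun k => ?_
  exact isClosed_eq (contMDiff_dirDeriv (v k) hh).continuous continuous_const

lemma crit_congr {h h' : N → ℝ} {x : N} (H : h =ᶠ[𝓝 x] h') : IsCrit n h x ↔ IsCrit n h' x := by
  rw [isCrit_iff_mfderiv, isCrit_iff_mfderiv]
  have : mfderiv (𝓡 n) 𝓘(ℝ, ℝ) h x = mfderiv (𝓡 n) 𝓘(ℝ, ℝ) h' x := H.mfderiv_eq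
  show mfderiv (𝓡 n) 𝓘(ℝ, ℝ) h x = 0 ↔ mfderiv (𝓡 n) 𝓘(ℝ, ℝ) h' x = 0
  rw [this]
  rfl

lemma diff_congr {h h' : N → ℝ} {x : N} (H : h =ᶠ[𝓝 x] h') : diff n h x = diff n h' x := by
  refine LinearMap.ext fun v => ?_
  exact DFunLike.congr_fun H.mfderiv_eq v

/-- A compact set without critical points stays so for small parameters. -/
lemma eventually_not_crit {r : ℕ∞} {h : N → ℝ}
    (hh : ContMDiff (𝓡 n) 𝓘(ℝ, ℝ) ((r + 1 : ℕ∞) : ℕ∞ω) h) {p : ℕ} {g : Fin p → N → ℝ}
    (hg : ∀ j, ContMDiff (𝓡 n) 𝓘(ℝ, ℝ) ∞ (g j)) {S : Set N} (hS : IsCompact S)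
    (h0 : ∀ x ∈ S, ¬ IsCrit n h x) :
    ∀ᶠ a in 𝓝 (0 : Fin p → ℝ), ∀ x ∈ S, ¬ IsCrit n (fun x => h x + ∑ j, a j * g j x) x := by
  obtain ⟨q, v, hv⟩ := exists_frame n N r
  have hr1 : ((r + 1 : ℕ∞) : ℕ∞ω) ≠ 0 := by
    have : (1 : ℕ∞ω) ≤ ((r + 1 : ℕ∞) : ℕ∞ω) := by exact_mod_cast le_add_self
    exact (zero_lt_one.trans_le this).ne'
  have hgr : ∀ j, ContMDiff (𝓡 n) 𝓘(ℝ, ℝ) ((r + 1 : ℕ∞) : ℕ∞ω) (g j) := fun j =>
    (hg j).of_le (by exact_mod_cast le_top)
  have hd : ∀ (a : Fin p → ℝ) (k : Fin q) (x : N),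
      dirDeriv (fun x => v k x) (fun x => h x + ∑ j, a j * g j x) x =
      dirDeriv (fun x => v k x) h x + ∑ j, a j * dirDeriv (fun x => v k x) (g j) x := by
    intro a k x
    have h1 : dirDeriv (fun x => v k x) (fun x => h x + ∑ j, a j * g j x) x =
        diff n (fun x => h x + ∑ j, a j * g j x) x (v k x) := rfl
    rw [h1, diff_fam (hh.mdifferentiable hr1) (fun j => (hgr j).mdifferentiable hr1) a x]
    have key : ∀ w : V n, (diff n h x + ∑ j, a j • diff n (g j) x) w =
        diff n h x w + ∑ j, a j * diff n (g j) x w := by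
      intro w
      rw [LinearMap.add_apply, LinearMap.sum_apply]
      rfl
    exact key (v k x)
  refine hS.eventually_forall_of_forall_eventually (P := fun (a : Fin p → ℝ) (x : N) =>
    ¬ IsCrit n (fun x => h x + ∑ j, a j * g j x) x) fun x hx => ?_
  have h1 := h0 x hx
  rw [isCrit_iff_frame hv] at h1
  push Not at h1
  obtain ⟨k, hk⟩ := h1
  have hc : Continuous (fun z : (Fin p → ℝ) × N => dirDeriv (fun x => v k x) h z.2 +
      ∑ j, z.1 j * dirDeriv (fun x => v k x) (g j) z.2) := by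
    refine ((contMDiff_dirDeriv (v k) hh).continuous.comp continuous_snd).add ?_
    refine continuous_finsetSum _ fun j _ => ?_
    exact ((continuous_apply j).comp continuous_fst).mul
      ((contMDiff_dirDeriv (v k) (hgr j)).continuous.comp continuous_snd)
  have hk' : dirDeriv (fun x => v k x) h ((0 : Fin p → ℝ), x).2 +
      ∑ j, ((0 : Fin p → ℝ), x).1 j * dirDeriv (fun x => v k x) (g j) ((0 : Fin p → ℝ), x).2 ≠ 0 := by
    simpa using hk
  have h2 := hc.continuousAt.eventually_ne hk'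
  filter_upwards [h2] with z hz hcr
  refine hz ?_
  rw [← hd]
  exact (isCrit_iff_frame hv).1 hcr k

/-- **The general theorem.** -/
theorem approx_general {r : ℕ∞} (hr : 1 ≤ r) (X : VField n N r) {h : N → ℝ}
    (hh : ContMDiff (𝓡 n) 𝓘(ℝ, ℝ) ((r + 1 : ℕ∞) : ℕ∞ω) h)
    (hm : ∀ x, 0 ≤ dirDeriv (fun x => X x) h x) {φ : N → ℝ → N} (hφ : IsFlow (fun x => X x) φ)
    {O : Set N} (hO : IsOpen O) {A : CoMap n N} (hA : IsCr r A)
    (hpos : ∀ (x : N) (ξ : V n →ₗ[ℝ] ℝ), 0 ≤ ξ (A x ξ))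
    (hXA : ∀ x ∈ O, X.fld x = A x (diff n h x))
    {m : ℕ} (M : Fin m → Set N) (hcl : ∀ i, IsClosed (M i))
    (hdis : ∀ i j, i ≠ j → Disjoint (M i) (M j)) (hMO : ∀ i, Disjoint (M i) (closure O))
    (hC : ∀ i, ∀ x ∈ M i, IsCrit n h x) (hinv : ∀ i t, (fun x => φ x t) '' M i = M i)
    (htr : ∀ i, ∃ x ∈ M i, M i ⊆ closure (φ x '' Ici 0))
    (hcov : ∀ x, (∀ t, IsCrit n h (φ x t)) → x ∈ O ∨ ∃ i, x ∈ M i)
    (U : Set (VField n N r)) (hU : AffOpen U) (hXU : X ∈ U) :
    ∃ Y ∈ U, ∃ (k : ℕ) (P : Fin k → N), Function.Injective P ∧ (∀ i j, P i ∉ M j) ∧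
      ∀ ψ, IsFlow (fun x => Y x) ψ → (∀ i t, ψ (P i) t = P i) ∧ (∀ j, ∀ x ∈ M j, ψ x = φ x) ∧
        ∀ x, (∃ i, omegaLim ψ x ⊆ {P i}) ∨ ∃ j, omegaLim ψ x ⊆ M j := by
  classical
  -- the critical points in `O`
  set L : Set N := {x | x ∈ O ∧ IsCrit n h x} with hL
  have hX1 := X.c1 hr
  have hfixL : ∀ x ∈ L, ∀ t, φ x t = x := by
    rintro x ⟨hxO, hxc⟩ t
    have h1 : X x = 0 := by
      have h2 : X.fld x = A x (diff n h x) := hXA x hxO
      rw [show diff n h x = 0 from hxc] at h2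
      exact h2.trans (map_zero (A x))
    have h2 : IsMIntegralCurve (I := 𝓡 n) (fun _ : ℝ => x) (fun x => X x) := isMIntegralCurve_const h1
    exact congrFun (flow_unique hX1 (hφ x).2 h2 (hφ x).1) t
  have hLeq : L = {x | IsCrit n h x} ∩ ({x | ∀ t, φ x t = x} ∩ closure O) := by
    ext x
    constructor
    · intro hx
      exact ⟨hx.2, hfixL x hx, subset_closure hx.1⟩
    · rintro ⟨h1, h2, h3⟩
      refine ⟨?_, h1⟩
      rcases hcov x (fun t => by rw [h2 t]; exact h1) with h4 | ⟨i, h4⟩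
      · exact h4
      · exact absurd h3 (disjoint_left.1 (hMO i) h4)
  have hLcl : IsClosed L := by
    rw [hLeq]
    refine (isClosed_crit hh).inter (IsClosed.inter ?_ isClosed_closure)
    have : {x | ∀ t, φ x t = x} = ⋂ t, {x | φ x t = x} := by
      ext x
      simp
    rw [this]
    exact isClosed_iInter fun t => isClosed_eq (flow_cont_t hX1 hφ t) continuous_id
  -- the cutoff
  obtain ⟨V₁, hV₁, hLV₁, hV₁O⟩ := normal_exists_closure_subset hLcl hO (fun x hx => hx.1)
  obtain ⟨ρ, hρ1, hρ0, -⟩ := exists_contMDiffMap_one_nhds_of_subset_interior (I := 𝓡 n) (n := ⊤)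
    hLcl (t := closure V₁) (hLV₁.trans (interior_maximal subset_closure hV₁))
  set T : Set N := closure V₁ with hT
  have hTcl : IsClosed T := isClosed_closure
  have hTO : T ⊆ O := hV₁O
  have hMT : ∀ i, ∀ x ∈ M i, x ∉ T := fun i x hx hxT =>
    disjoint_left.1 (hMO i) hx (subset_closure (hTO hxT))
  set Vo : Set N := interior {x | ρ x = 1} with hVo
  have hLVo : L ⊆ Vo := by
    intro x hx
    have h1 := eventually_nhdsSet_iff_forall.1 hρ1 x hx
    exact mem_interior_iff_mem_nhds.2 h1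
  have hVoT : Vo ⊆ T := by
    intro x hx
    by_contra hxT
    have h1 : ρ x = 1 := interior_subset (s := {x | ρ x = 1}) hx
    rw [hρ0 x hxT] at h1
    exact zero_ne_one h1
  obtain ⟨p, f, hf, hD⟩ := exists_morse_family_fin n N
  have hr2 : (2 : ℕ∞ω) ≤ ((r + 1 : ℕ∞) : ℕ∞ω) := by
    have : (2 : ℕ∞) ≤ r + 1 := by
      calc (2 : ℕ∞) = 1 + 1 := by norm_num
        _ ≤ r + 1 := add_le_add_left hr 1
    exact (show ((2 : ℕ∞) : ℕ∞ω) ≤ ((r + 1 : ℕ∞) : ℕ∞ω) from by exact_mod_cast this)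
  have hh2 : ContMDiff (𝓡 n) 𝓘(ℝ, ℝ) 2 h := hh.of_le hr2
  set g : Fin p → N → ℝ := fun j x => ρ x * f j x with hg
  have hgs : ∀ j, ContMDiff (𝓡 n) 𝓘(ℝ, ℝ) ∞ (g j) := fun j => ρ.contMDiff.mul (hf j)
  have hgr : ∀ j, ContMDiff (𝓡 n) 𝓘(ℝ, ℝ) ((r + 1 : ℕ∞) : ℕ∞ω) (g j) := fun j =>
    (hgs j).of_le (by exact_mod_cast le_top)
  choose W hW using fun j => hA (g j) (hgs j)
  -- the parameter
  have hSc : IsCompact (T \ Vo) := (hTcl.sdiff isOpen_interior).isCompact
  have hS0 : ∀ x ∈ T \ Vo, ¬ IsCrit n h x := fun x hx hc => hx.2 (hLVo ⟨hTO hx.1, hc⟩)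
  obtain ⟨a, ⟨haU, haS⟩, ha⟩ := mem_closure_iff_nhds.1 ((hD h hh2) 0) _
    (inter_mem (hU X hXU p W) (eventually_not_crit hh hgs hSc hS0))
  set Ha : N → ℝ := fun x => h x + ∑ j, a j * g j x with hHa
  have hHar : ContMDiff (𝓡 n) 𝓘(ℝ, ℝ) ((r + 1 : ℕ∞) : ℕ∞ω) Ha :=
    hh.add (contMDiff_finsetSum fun j _ => contMDiff_const.mul (hgr j))
  let X' : VField n N r := X + ∑ j, a j • W j
  -- off `T` nothing changes
  have hoff : ∀ x ∉ T, Ha =ᶠ[𝓝 x] h := by
    intro x hx
    filter_upwards [hTcl.isOpen_compl.mem_nhds hx] with z hz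
    simp only [hHa, hg, hρ0 z hz, zero_mul, mul_zero, Finset.sum_const_zero, add_zero]
  have hWoff : ∀ j, ∀ x ∉ T, W j x = 0 := by
    intro j x hx
    have h1 : g j =ᶠ[𝓝 x] fun _ => (0 : ℝ) := by
      filter_upwards [hTcl.isOpen_compl.mem_nhds hx] with z hz
      simp only [hg, hρ0 z hz, zero_mul]
    have h2 : (W j).fld x = A x (diff n (g j) x) := hW j x
    have h3 : diff n (fun _ : N => (0 : ℝ)) x = 0 := by
      refine LinearMap.ext fun v => ?_
      have h4 : mfderiv (𝓡 n) 𝓘(ℝ, ℝ) (fun _ : N => (0 : ℝ)) x = 0 := mfderiv_const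
      exact DFunLike.congr_fun h4 v
    rw [diff_congr h1, h3] at h2
    exact h2.trans (map_zero (A x))
  have hsum : ∀ (s : Finset (Fin p)) (x : N), (X + ∑ j ∈ s, a j • W j) x =
      X x + ∑ j ∈ s, a j • W j x := by
    intro s x
    induction s using Finset.induction_on with
    | empty => simp
    | insert j s hj ih =>
      rw [Finset.sum_insert hj, Finset.sum_insert hj]
      have e1 : X + (a j • W j + ∑ i ∈ s, a i • W i) =
        (X + ∑ i ∈ s, a i • W i) + a j • W j := by abel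
      rw [e1]
      have e2 : ((X + ∑ i ∈ s, a i • W i) + a j • W j) x =
        (X + ∑ i ∈ s, a i • W i) x + a j • W j x := rfl
      rw [e2, ih]
      abel
  have hX'off : ∀ x ∉ T, X' x = X x := by
    intro x hx
    have h1 : X' x = X x + ∑ j, a j • W j x := hsum Finset.univ x
    rw [h1]
    have h2 : ∑ j, a j • W j x = 0 := Finset.sum_eq_zero fun j _ => by rw [hWoff j x hx, smul_zero]
    rw [h2, add_zero]
  have hX'O : ∀ x ∈ O, X' x = A x (diff n Ha x) := by
    intro x hx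
    have h1 : diff n Ha x = diff n h x + ∑ j, a j • diff n (g j) x :=
      diff_fam (hh2.mdifferentiable two_ne_zero)
        (fun j => ((hgs j).mdifferentiable (by simp))) a x
    have h2 : ∀ s : Finset (Fin p), (X + ∑ j ∈ s, a j • W j) x =
        A x (diff n h x + ∑ j ∈ s, a j • diff n (g j) x) := by
      intro s
      induction s using Finset.induction_on with
      | empty => simpa using hXA x hx
      | insert j s hj ih =>
        rw [Finset.sum_insert hj, Finset.sum_insert hj]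
        have e1 : X + (a j • W j + ∑ i ∈ s, a i • W i) =
          (X + ∑ i ∈ s, a i • W i) + a j • W j := by abel
        have e2 : diff n h x + (a j • diff n (g j) x + ∑ i ∈ s, a i • diff n (g i) x) =
          (diff n h x + ∑ i ∈ s, a i • diff n (g i) x) + a j • diff n (g j) x := by abel
        rw [e1, e2, map_add, map_smul, ← ih, ← hW j x]
        rfl
    rw [h1]
    exact h2 Finset.univ
  -- the critical points of `Ha`
  have hcritoff : ∀ x ∉ T, (IsCrit n Ha x ↔ IsCrit n h x) := fun x hx => crit_congr (hoff x hx)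
  have hfin : {x | x ∈ T ∧ IsCrit n Ha x}.Finite := by
    refine Set.Finite.subset ha ?_
    rintro x ⟨hxT, hxc⟩
    have hxV : x ∈ Vo := by
      by_contra hxV
      exact haS x ⟨hxT, hxV⟩ hxc
    refine (crit_congr ?_).1 hxc
    filter_upwards [isOpen_interior.mem_nhds hxV] with z hz
    have h1 : ρ z = 1 := interior_subset (s := {x | ρ x = 1}) hz
    simp only [hHa, hg, h1, one_mul]
  have hcritO : ∀ x ∈ O, IsCrit n Ha x → x ∈ T := by
    intro x hx hc
    by_contra hxT
    exact hxT (hVoT (hLVo ⟨hx, (hcritoff x hxT).1 hc⟩))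
  let e : Fin (Fintype.card hfin.toFinset) ≃ hfin.toFinset := (Fintype.equivFin _).symm
  let P : Fin (Fintype.card hfin.toFinset) → N := fun i => (e i).1
  have hPinj : Function.Injective P := fun i j hij => e.injective (Subtype.ext hij)
  have hPmem : ∀ i, P i ∈ T ∧ IsCrit n Ha (P i) := fun i => hfin.mem_toFinset.1 (e i).2
  have hPall : ∀ x ∈ O, IsCrit n Ha x → ∃ i, P i = x := by
    intro x hxO hx
    refine ⟨e.symm ⟨x, hfin.mem_toFinset.2 ⟨hcritO x hxO hx, hx⟩⟩, ?_⟩
    show (e (e.symm _)).1 = x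
    rw [Equiv.apply_symm_apply]
  have hmono : ∀ x, 0 ≤ dirDeriv (fun x => X' x) Ha x := by
    intro x
    have h1 : dirDeriv (fun x => X' x) Ha x = diff n Ha x (X' x) := rfl
    by_cases hx : x ∈ O
    · rw [h1, hX'O x hx]
      exact hpos x _
    · have hxT : x ∉ T := fun h => hx (hTO h)
      rw [h1, hX'off x hxT, diff_congr (hoff x hxT)]
      exact hm x
  have hX'1 := X'.c1 hr
  have hzero : ∀ x ∈ O, IsCrit n Ha x → X' x = 0 := by
    intro x hxO hx
    rw [hX'O x hxO, show diff n Ha x = 0 from hx]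
    exact map_zero (A x)
  have hfixP : ∀ χ, IsFlow (fun x => X' x) χ → ∀ i t, χ (P i) t = P i := by
    intro χ hχ i t
    have h1 : IsMIntegralCurve (I := 𝓡 n) (fun _ : ℝ => P i) (fun x => X' x) :=
      isMIntegralCurve_const (hzero _ (hTO (hPmem i).1) (hPmem i).2)
    exact congrFun (flow_unique hX'1 (hχ (P i)).2 h1 (hχ (P i)).1) t
  have hMflow : ∀ χ, IsFlow (fun x => X' x) χ → ∀ i, ∀ x ∈ M i, χ x = φ x := by
    intro χ hχ i x hx
    refine flow_unique hX'1 (hχ x).2 (curve_of_eq (hφ x).2 fun t => ?_) ((hχ x).1.trans (hφ x).1.symm)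
    refine (hX'off _ (hMT i _ ?_)).symm
    rw [← hinv i t]
    exact ⟨x, hx, rfl⟩
  -- the transitive sets
  let M' : Fin (m + Fintype.card hfin.toFinset) → Set N := Fin.append M (fun i => {P i})
  have hPM : ∀ i j, P i ∉ M j := fun i j hij => hMT j _ hij (hPmem i).1
  have hM'all : ∀ {p : Set N → Prop}, (∀ i, p (M i)) → (∀ i, p {P i}) → ∀ i, p (M' i) := by
    intro p h1 h2 i
    refine Fin.addCases (fun i => ?_) (fun i => ?_) i
    · have : M' (Fin.castAdd _ i) = M i := Fin.append_left _ _ _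
      rw [this]
      exact h1 i
    · have : M' (Fin.natAdd _ i) = {P i} := Fin.append_right _ _ _
      rw [this]
      exact h2 i
  have hM'dis : ∀ i j, i ≠ j → Disjoint (M' i) (M' j) := by
    intro i j
    refine Fin.addCases (fun i => ?_) (fun i => ?_) i <;>
      refine Fin.addCases (fun j => ?_) (fun j => ?_) j
    · intro hij
      have e1 : M' (Fin.castAdd _ i) = M i := Fin.append_left _ _ _
      have e2 : M' (Fin.castAdd _ j) = M j := Fin.append_left _ _ _
      rw [e1, e2]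
      exact hdis i j fun h => hij (by rw [h])
    · intro _
      have e1 : M' (Fin.castAdd _ i) = M i := Fin.append_left _ _ _
      have e2 : M' (Fin.natAdd _ j) = {P j} := Fin.append_right _ _ _
      rw [e1, e2, disjoint_singleton_right]
      exact hPM j i
    · intro _
      have e1 : M' (Fin.natAdd _ i) = {P i} := Fin.append_right _ _ _
      have e2 : M' (Fin.castAdd _ j) = M j := Fin.append_left _ _ _
      rw [e1, e2, disjoint_singleton_left]
      exact hPM i j
    · intro hij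
      have e1 : M' (Fin.natAdd _ i) = {P i} := Fin.append_right _ _ _
      have e2 : M' (Fin.natAdd _ j) = {P j} := Fin.append_right _ _ _
      rw [e1, e2, disjoint_singleton]
      exact fun h => hij (by rw [hPinj h])
  have hMHa : ∀ i, ∀ x ∈ M i, IsCrit n Ha x := fun i x hx => (hcritoff x (hMT i x hx)).2 (hC i x hx)
  obtain ⟨Y, hYU, hYh, hYX, hY⟩ := approx_of_weak_lyapunov_aff hr X' hHar hmono M'
    (hM'all hcl fun i => isClosed_singleton) hM'dis
    (hM'all (p := fun S => ∀ x ∈ S, IsCrit n Ha x) hMHa fun i x hx => by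
      rw [mem_singleton_iff.1 hx]
      exact (hPmem i).2)
    (fun χ hχ => ⟨hM'all (p := fun S => ∀ t, (fun x => χ x t) '' S = S) (fun i t => by
        conv_rhs => rw [← hinv i t]
        exact Set.image_congr fun x hx => congrFun (hMflow χ hχ i x hx) t)
        (fun i t => by rw [image_singleton, hfixP χ hχ i t]),
      hM'all (p := fun S => ∃ x ∈ S, S ⊆ closure (χ x '' Ici 0)) (fun i => by
        obtain ⟨x, hx, hx2⟩ := htr i
        refine ⟨x, hx, ?_⟩
        rw [hMflow χ hχ i x hx]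
        exact hx2) (fun i => ⟨P i, rfl, fun y hy => by
          rw [mem_singleton_iff.1 hy]
          refine subset_closure ⟨0, mem_Ici.2 le_rfl, ?_⟩
          exact hfixP χ hχ i 0⟩),
      fun x hx => by
        by_cases hor : ∃ t, χ x t ∈ O
        · obtain ⟨t, ht⟩ := hor
          obtain ⟨i, hi⟩ := hPall _ ht (hx t)
          refine ⟨Fin.natAdd _ i, ?_⟩
          have e2 : M' (Fin.natAdd _ i) = {P i} := Fin.append_right _ _ _
          rw [e2, mem_singleton_iff]
          have h1 : χ (χ x t) (-t) = x := by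
            rw [← isFlow_add hX'1 hχ, add_neg_cancel, (hχ x).1]
          rw [← h1, ← hi, hfixP χ hχ i (-t)]
        · push Not at hor
          have h1 : ∀ t, χ x t ∉ T := fun t h => hor t (hTO h)
          have h2 : φ x = χ x := flow_unique hX1 (hφ x).2
            (curve_of_eq (hχ x).2 fun t => hX'off _ (h1 t)) ((hφ x).1.trans (hχ x).1.symm)
          have h3 : ∀ t, IsCrit n h (φ x t) := fun t => by
            rw [h2]
            exact (hcritoff _ (h1 t)).1 (hx t)
          rcases hcov x h3 with h4 | ⟨i, h4⟩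
          · exfalso
            refine hor 0 ?_
            rw [(hχ x).1]
            exact h4
          · refine ⟨Fin.castAdd _ i, ?_⟩
            have e1 : M' (Fin.castAdd _ i) = M i := Fin.append_left _ _ _
            rw [e1]
            exact h4⟩) U hU haU
  refine ⟨Y, hYU, _, P, hPinj, hPM, fun ψ hψ => ?_⟩
  obtain ⟨h1, h2, h3, -⟩ := hY ψ hψ
  have hψφ : ∀ j, ∀ x ∈ M j, ψ x = φ x := by
    intro i x hx
    refine flow_unique (Y.c1 hr) (hψ x).2 (curve_of_eq (hφ x).2 fun t => ?_)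
      ((hψ x).1.trans (hφ x).1.symm)
    have h4 : φ x t ∈ M i := by
      rw [← hinv i t]
      exact ⟨x, hx, rfl⟩
    rw [hYX _ (hMHa i _ h4), hX'off _ (hMT i _ h4)]
  refine ⟨fun i t => ?_, hψφ, fun x => ?_⟩
  · have h5 := h1 (Fin.natAdd _ i) t
    have e2 : M' (Fin.natAdd _ i) = {P i} := Fin.append_right _ _ _
    rw [e2, image_singleton] at h5
    exact singleton_injective h5
  · obtain ⟨i, hi⟩ := h3 x
    revert hi
    refine Fin.addCases (fun i => ?_) (fun i => ?_) i
    · intro hi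
      have e1 : M' (Fin.castAdd _ i) = M i := Fin.append_left _ _ _
      rw [e1] at hi
      exact Or.inr ⟨i, hi⟩
    · intro hi
      have e2 : M' (Fin.natAdd _ i) = {P i} := Fin.append_right _ _ _
      rw [e2] at hi
      exact Or.inl ⟨i, hi⟩

end Pool.Agent.W5h74.FL
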