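import Pool.Agent.W5h74.FL.Param
import Pool.Agent.TH80.CLX.Fam

/-!
# Time-one maps of `C^r` vector fields on closed manifolds
-/

set_option autoImplicit false
set_option linter.unusedSectionVars false

open scoped Manifold ContDiff Topology
open Filter Set Bundle

namespace Pool.Agent.W5h74.FL

open Pool.Agent.H718R2.G (DiffM strongTop)

universe u

variable {n : ℕ} {N : Type u} [TopologicalSpace N] [T2Space N] [CompactSpace N]
  [ChartedSpace (V n) N] [IsManifold (𝓡 n) ∞ N] {r : ℕ∞} {p : ℕ}

/-- the flow of `X` -/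
noncomputable def theFlow (hr : 1 ≤ r) (X : VField n N r) : N → ℝ → N :=
  (X.exists_unique_flow hr).choose

lemma theFlow_isFlow (hr : 1 ≤ r) (X : VField n N r) : IsFlow X.fld (theFlow hr X) :=
  (X.exists_unique_flow hr).choose_spec.1

lemma eq_theFlow (hr : 1 ≤ r) (X : VField n N r) {φ : N → ℝ → N} (h : IsFlow X.fld φ) :
    φ = theFlow hr X :=
  (X.exists_unique_flow hr).choose_spec.2 φ h

lemma theFlow_zero (hr : 1 ≤ r) (X : VField n N r) (x : N) : theFlow hr X x 0 = x :=
  (theFlow_isFlow hr X x).1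

lemma theFlow_add (hr : 1 ≤ r) (X : VField n N r) (x : N) (s t : ℝ) :
    theFlow hr X x (s + t) = theFlow hr X (theFlow hr X x s) t :=
  isFlow_add (X.c1 hr) (theFlow_isFlow hr X) x s t

theorem contMDiff_theFlow (hr : 1 ≤ r) (X : VField n N r) (t : ℝ) :
    ContMDiff (𝓡 n) (𝓡 n) (r : ℕ∞ω) (fun x => theFlow hr X x t) := by
  have h1 := contMDiff_flow_r hr X.contMDiff (Fl := theFlow hr X)
    (fun x => (theFlow_isFlow hr X x).1) (fun x => (theFlow_isFlow hr X x).2)
  have h2 : ContMDiff (𝓡 n) ((𝓡 n).prod 𝓘(ℝ, ℝ)) (r : ℕ∞ω) (fun x : N => (x, t)) :=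
    contMDiff_id.prodMk contMDiff_const
  exact h1.comp h2

/-- the time-one map of `X` -/
noncomputable def timeOne (hr : 1 ≤ r) (X : VField n N r) : DiffM n N r where
  toFun x := theFlow hr X x 1
  invFun x := theFlow hr X x (-1)
  left_inv x := by
    show theFlow hr X (theFlow hr X x 1) (-1) = x
    rw [← theFlow_add, show (1 : ℝ) + -1 = 0 by norm_num, theFlow_zero]
  right_inv x := by
    show theFlow hr X (theFlow hr X x (-1)) 1 = x
    rw [← theFlow_add, show (-1 : ℝ) + 1 = 0 by norm_num, theFlow_zero]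
  contMDiff_toFun := contMDiff_theFlow hr X 1
  contMDiff_invFun := contMDiff_theFlow hr X (-1)

lemma timeOne_apply (hr : 1 ≤ r) (X : VField n N r) (x : N) :
    timeOne hr X x = theFlow hr X x 1 := rfl

/-- The time-one maps of an affine family of vector fields are a `C^r` family. -/
theorem timeOne_mem (hr : 1 ≤ r) (X : VField n N r) (W : Fin p → VField n N r)
    (U : Set (DiffM n N r)) (hU : IsOpen[strongTop n N r] U) (h0 : timeOne hr X ∈ U) :
    ∀ᶠ a in 𝓝 (0 : V p), timeOne hr (aff X W a) ∈ U := by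
  rcases isEmpty_or_nonempty N with hN | ⟨⟨z⟩⟩
  · refine Eventually.of_forall fun a => ?_
    have : timeOne hr (aff X W a) = timeOne hr X := by
      ext x
      exact hN.elim x
    rw [this]
    exact h0
  have hfam : Pool.Agent.W564.SC.IsFam n N r (fun a : V p => timeOne hr (aff X W a)) := by
    intro y
    exact contMDiff_family hr X W (Φ := fun a => theFlow hr (aff X W a))
      (fun a => theFlow_isFlow hr (aff X W a)) 1 (0, y)
  have e : aff X W 0 = X := by
    unfold aff
    simp
  obtain ⟨κ, hκ, h⟩ := Pool.Agent.TH80.CLX.fam_mem r hr _ hfam z U hU (by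
    show timeOne hr (aff X W 0) ∈ U
    rw [e]
    exact h0)
  rw [Metric.eventually_nhds_iff]
  refine ⟨κ, hκ, fun a ha => h a (by rwa [dist_zero_right] at ha)⟩

end Pool.Agent.W5h74.FL
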