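import Pool.Agent.W5h74.FL.PartC
import Pool.Agent.W5h74.FL.TimeOne
import Pool.Agent.H728R2.FA.Defs

/-!
# Attractors of flows and of their time-one maps
-/

set_option autoImplicit false
set_option linter.unusedSectionVars false

open scoped Manifold ContDiff Topology
open Filter Set MeasureTheory

namespace Pool.Agent.W5h74.FL

open Pool.Agent.H718R2.G (DiffM strongTop)

universe u

section top

variable {X : Type u} [TopologicalSpace X]

/-- Finiteness of attractors of a map from a finite list of transitive sets which contain all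
`ω`-limit sets. -/
theorem fa_of_cover {f : X → X} {m : ℕ} (M : Fin m → Set X) (hinv : ∀ i, f '' M i = M i)
    (htr : ∀ i, ∃ x ∈ M i, M i ⊆ closure (range fun k : ℕ => f^[k] x))
    (hcov : ∀ p, ∃ i, Pool.Agent.H728R2.FA.omegaLim f p ⊆ M i) [MeasurableSpace X]
    (μ : Measure X) : Pool.Agent.H728R2.FA.FiniteAttractors μ f := by
  classical
  let S : Type := {i : Fin m // 0 < μ {p | Pool.Agent.H728R2.FA.omegaLim f p ⊆ M i}}
  let e : Fin (Fintype.card S) ≃ S := (Fintype.equivFin S).symm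
  refine ⟨Fintype.card S, fun j => M (e j).1, fun j => ⟨hinv _, htr _, (e j).2⟩, ?_⟩
  have h1 : {p | ∀ j, ¬ Pool.Agent.H728R2.FA.omegaLim f p ⊆ M (e j).1} ⊆
      ⋃ i ∈ {i : Fin m | ¬ 0 < μ {p | Pool.Agent.H728R2.FA.omegaLim f p ⊆ M i}},
        {p | Pool.Agent.H728R2.FA.omegaLim f p ⊆ M i} := by
    intro p hp
    obtain ⟨i, hi⟩ := hcov p
    refine mem_iUnion₂.2 ⟨i, ?_, hi⟩
    intro hpos
    have h2 := hp (e.symm ⟨i, hpos⟩)
    rw [Equiv.apply_symm_apply] at h2
    exact h2 hi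
  refine measure_mono_null h1 ?_
  refine (measure_biUnion_null_iff (Set.to_countable _)).2 fun i hi => ?_
  exact nonpos_iff_eq_zero.1 (not_lt.1 hi)

lemma append_all {m k : ℕ} {M : Fin m → Set X} {M' : Fin k → Set X} {p : Set X → Prop}
    (h1 : ∀ i, p (M i)) (h2 : ∀ i, p (M' i)) : ∀ i, p (Fin.append M M' i) := by
  intro i
  refine Fin.addCases (fun i => ?_) (fun i => ?_) i
  · rw [Fin.append_left]
    exact h1 i
  · rw [Fin.append_right]
    exact h2 i

/-- Convergence from a one point `ω`-limit set. -/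
lemma tendsto_of_omega [CompactSpace X] {φ : X → ℝ → X} {x q : X}
    (h : omegaLim φ x ⊆ {q}) : Tendsto (φ x) atTop (𝓝 q) := by
  rw [(nhds_basis_opens q).tendsto_right_iff]
  rintro O ⟨hqO, hO⟩
  obtain ⟨T, hT⟩ := eventually_mem_of_omega_subset hO (h.trans (singleton_subset_iff.2 hqO))
  exact eventually_atTop.2 ⟨T, hT⟩

end top

variable {n : ℕ} {N : Type u} [TopologicalSpace N] [T2Space N] [CompactSpace N]
  [ChartedSpace (V n) N] [IsManifold (𝓡 n) ∞ N] {r : ℕ∞}

/-- The condition that the time-one map is in an open set. -/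
lemma affOpen_timeOne (hr : 1 ≤ r) {U : Set (DiffM n N r)} (hU : IsOpen[strongTop n N r] U) :
    AffOpen {X : VField n N r | timeOne hr X ∈ U} := by
  intro X hX p W
  have h1 := timeOne_mem hr X W U hU hX
  let L : (Fin p → ℝ) → V p := fun a => WithLp.toLp 2 a
  have hL : Continuous L := (PiLp.continuous_toLp 2 _)
  have hL0 : L 0 = 0 := rfl
  have h2 : ∀ᶠ a in 𝓝 (0 : Fin p → ℝ), timeOne hr (aff X W (L a)) ∈ U := by
    have h3 : Tendsto L (𝓝 0) (𝓝 (0 : V p)) := by
      have := hL.tendsto 0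
      rwa [hL0] at this
    exact h3.eventually h1
  filter_upwards [h2] with a ha
  exact ha

lemma timeOne_iterate (hr : 1 ≤ r) (X : VField n N r) (x : N) (k : ℕ) :
    (timeOne hr X)^[k] x = theFlow hr X x k := by
  induction k with
  | zero => simp [theFlow_zero]
  | succ k ih =>
    rw [Function.iterate_succ_apply', ih, timeOne_apply, ← theFlow_add]
    push_cast
    rfl

lemma fa_omega_sub (hr : 1 ≤ r) (X : VField n N r) (x : N) :
    Pool.Agent.H728R2.FA.omegaLim (timeOne hr X) x ⊆ omegaLim (theFlow hr X) x := by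
  intro q hq U hU T
  obtain ⟨K, hK⟩ := exists_nat_ge T
  obtain ⟨k, hk, hkU⟩ := hq U hU K
  refine ⟨k, hK.trans (by exact_mod_cast hk), ?_⟩
  rw [← timeOne_iterate]
  exact hkU

/-- The general theorem, for neighbourhoods of the field and of its time-one map. -/
theorem approx_both (hr : 1 ≤ r) (X : VField n N r) {h : N → ℝ}
    (hh : ContMDiff (𝓡 n) 𝓘(ℝ, ℝ) ((r + 1 : ℕ∞) : ℕ∞ω) h)
    (hm : ∀ x, 0 ≤ dirDeriv (fun x => X x) h x) {φ : N → ℝ → N} (hφ : IsFlow (fun x => X x) φ)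
    {O : Set N} (hO : IsOpen O) {A : CoMap n N} (hA : IsCr r A)
    (hpos : ∀ (x : N) (ξ : V n →ₗ[ℝ] ℝ), 0 ≤ ξ (A x ξ))
    (hXA : ∀ x ∈ O, X.fld x = A x (diff n h x))
    {m : ℕ} (M : Fin m → Set N) (hcl : ∀ i, IsClosed (M i))
    (hdis : ∀ i j, i ≠ j → Disjoint (M i) (M j)) (hMO : ∀ i, Disjoint (M i) (closure O))
    (hC : ∀ i, ∀ x ∈ M i, IsCrit n h x) (hinv : ∀ i t, (fun x => φ x t) '' M i = M i)
    (htr : ∀ i, ∃ x ∈ M i, M i ⊆ closure (φ x '' Ici 0))
    (hcov : ∀ x, (∀ t, IsCrit n h (φ x t)) → x ∈ O ∨ ∃ i, x ∈ M i)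
    (U : Set (VField n N r)) (hU : IsOpen[crTopology n N r] U) (hXU : X ∈ U)
    (U' : Set (DiffM n N r)) (hU' : IsOpen[strongTop n N r] U') (hXU' : timeOne hr X ∈ U') :
    ∃ Y ∈ U, timeOne hr Y ∈ U' ∧
      (∃ (k : ℕ) (P : Fin k → N), (∀ i t, theFlow hr Y (P i) t = P i) ∧
        ∀ x, (∃ i, Tendsto (theFlow hr Y x) atTop (𝓝 (P i))) ∨
          ∃ j, omegaLim (theFlow hr Y) x ⊆ M j) ∧
      (∀ (_ : MeasurableSpace N) (μ : Measure N), FiniteAttractors μ (theFlow hr Y)) ∧
      ((∀ j, ∃ x ∈ M j, M j ⊆ closure (range fun k : ℕ => (timeOne hr X)^[k] x)) →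
        ∀ (_ : MeasurableSpace N) (μ : Measure N),
          Pool.Agent.H728R2.FA.FiniteAttractors μ (timeOne hr Y)) := by
  obtain ⟨Y, hYU, k, P, hP, hPM, hY⟩ := approx_general hr X hh hm hφ hO hA hpos hXA M hcl hdis hMO
    hC hinv htr hcov (U ∩ {X | timeOne hr X ∈ U'})
    ((affOpen_of_isOpen hU).inter (affOpen_timeOne hr hU')) ⟨hXU, hXU'⟩
  obtain ⟨h1, h2, h3⟩ := hY _ (theFlow_isFlow hr Y)
  have hφe : φ = theFlow hr X := eq_theFlow hr X hφ
  set ψ := theFlow hr Y with hψ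
  have hinv' : ∀ i t, (fun x => ψ x t) '' M i = M i := by
    intro i t
    conv_rhs => rw [← hinv i t]
    exact Set.image_congr fun x hx => congrFun (h2 i x hx) t
  refine ⟨Y, hYU.1, hYU.2, ⟨k, P, h1, fun x => ?_⟩, fun _ μ => ?_, fun htrF _ μ => ?_⟩
  · rcases h3 x with ⟨i, hi⟩ | h4
    · exact Or.inl ⟨i, tendsto_of_omega hi⟩
    · exact Or.inr h4
  · refine finite_of_cover (Fin.append M fun i => {P i}) ?_ ?_ ?_ μ
    · exact append_all (p := fun S => ∀ t, (fun x => ψ x t) '' S = S) hinv' fun i t => by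
        rw [image_singleton, h1 i t]
    · exact append_all (p := fun S => ∃ x ∈ S, S ⊆ closure (ψ x '' Ici 0)) (fun i => by
        obtain ⟨x, hx, hx2⟩ := htr i
        refine ⟨x, hx, ?_⟩
        rw [h2 i x hx]
        exact hx2) (fun i => ⟨P i, rfl, fun y hy => by
          rw [mem_singleton_iff.1 hy]
          exact subset_closure ⟨0, mem_Ici.2 le_rfl, h1 i 0⟩⟩)
    · intro x
      rcases h3 x with ⟨i, hi⟩ | ⟨j, hj⟩
      · exact ⟨Fin.natAdd _ i, by rw [Fin.append_right]; exact hi⟩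
      · exact ⟨Fin.castAdd _ j, by rw [Fin.append_left]; exact hj⟩
  · have himg : ∀ i, ∀ x ∈ M i, timeOne hr Y x = timeOne hr X x := by
      intro i x hx
      rw [timeOne_apply, timeOne_apply, ← hφe]
      exact congrFun (h2 i x hx) 1
    refine fa_of_cover (Fin.append M fun i => {P i}) ?_ ?_ ?_ μ
    · refine append_all (p := fun S => (timeOne hr Y) '' S = S) (fun i => ?_) fun i => ?_
      · exact hinv' i 1
      · rw [image_singleton]
        exact congrArg _ (h1 i 1)
    · refine append_all (p := fun S => ∃ x ∈ S, S ⊆ closure (range fun k : ℕ =>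
        (timeOne hr Y)^[k] x)) (fun i => ?_) fun i => ?_
      · obtain ⟨x, hx, hx2⟩ := htrF i
        refine ⟨x, hx, ?_⟩
        have e : (fun k : ℕ => (timeOne hr Y)^[k] x) = fun k : ℕ => (timeOne hr X)^[k] x := by
          funext k
          rw [timeOne_iterate, timeOne_iterate, ← hφe]
          exact congrFun (h2 i x hx) k
        rw [e]
        exact hx2
      · exact ⟨P i, rfl, fun y hy => by
          rw [mem_singleton_iff.1 hy]
          exact subset_closure ⟨0, rfl⟩⟩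
    · intro x
      rcases h3 x with ⟨i, hi⟩ | ⟨j, hj⟩
      · exact ⟨Fin.natAdd _ i, by rw [Fin.append_right]; exact (fa_omega_sub hr Y x).trans hi⟩
      · exact ⟨Fin.castAdd _ j, by rw [Fin.append_left]; exact (fa_omega_sub hr Y x).trans hj⟩

end Pool.Agent.W5h74.FL
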