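import Pool.Agent.W5h74.FL.Defs

/-!
# Vector fields in charts, and affine families of vector fields
-/

set_option autoImplicit false

open scoped Manifold ContDiff Topology
open Filter Set Bundle

set_option linter.unusedSectionVars false

namespace Pool.Agent.W5h74.FL

universe u

variable {n : ℕ} {N : Type u} [TopologicalSpace N] [ChartedSpace (V n) N] [IsManifold (𝓡 n) ∞ N]

instance (r : ℕ∞) : IsManifold (𝓡 n) (r : ℕ∞ω) N :=
  IsManifold.of_le (n := ∞) (by exact_mod_cast le_top)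

instance (r : ℕ∞) : ContMDiffVectorBundle (r : ℕ∞ω) (V n) (TangentSpace (𝓡 n) : N → Type _) (𝓡 n) := by
  have : IsManifold (𝓡 n) ((r : ℕ∞ω) + 1) N := by
    refine IsManifold.of_le (n := ∞) ?_
    have : ((r : ℕ∞ω) + 1) = (((r + 1 : ℕ∞)) : ℕ∞ω) := by push_cast; rfl
    rw [this]
    exact_mod_cast le_top
  infer_instance

lemma inChart_add (c : N) (X Y : (x : N) → TangentSpace (𝓡 n) x) :
    inChart c (fun x => X x + Y x) = inChart c X + inChart c Y := by
  ext1 y
  exact map_add (mfderiv (𝓡 n) 𝓘(ℝ, V n) (extChartAt (𝓡 n) c) ((extChartAt (𝓡 n) c).symm y)) _ _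

lemma inChart_smul (c : N) (X : (x : N) → TangentSpace (𝓡 n) x) (a : ℝ) :
    inChart c (fun x => a • X x) = a • inChart c X := by
  ext1 y
  exact map_smul (mfderiv (𝓡 n) 𝓘(ℝ, V n) (extChartAt (𝓡 n) c) ((extChartAt (𝓡 n) c).symm y)) _ _

lemma trivialization_eq (c : N) {x : N} (hx : x ∈ (chartAt (V n) c).source)
    (v : TangentSpace (𝓡 n) x) :
    ((trivializationAt (V n) (TangentSpace (𝓡 n)) c) ⟨x, v⟩).2 =
      mfderiv (𝓡 n) 𝓘(ℝ, V n) (extChartAt (𝓡 n) c) x v := by
  have h := DFunLike.congr_fun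
    (TangentBundle.continuousLinearMapAt_trivializationAt (I := 𝓡 n) (𝕜 := ℝ) hx) v
  refine Eq.trans ?_ h
  exact (congrFun (Trivialization.coe_linearMapAt_of_mem (R := ℝ)
    (trivializationAt (V n) (TangentSpace (𝓡 n)) c) (b := x) hx) v).symm

lemma contMDiffAt_iff_chart {k : ℕ∞} (c : N) {x : N} (hx : x ∈ (chartAt (V n) c).source)
    (X : (x : N) → TangentSpace (𝓡 n) x) :
    ContMDiffAt (𝓡 n) (𝓡 n).tangent k (fun x => (⟨x, X x⟩ : TangentBundle (𝓡 n) N)) x ↔
    ContMDiffAt (𝓡 n) 𝓘(ℝ, V n) k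
      (fun x => mfderiv (𝓡 n) 𝓘(ℝ, V n) (extChartAt (𝓡 n) c) x (X x) : N → V n) x := by
  have h := (trivializationAt (V n) (TangentSpace (𝓡 n)) c).contMDiffAt_section_iff (IB := 𝓡 n)
    (n := (k : ℕ∞ω)) (s := X) (x₀ := x) hx
  refine h.trans ?_
  refine Filter.EventuallyEq.contMDiffAt_iff ?_
  filter_upwards [(chartAt (V n) c).open_source.mem_nhds hx] with z hz
  exact trivialization_eq c hz (X z)

lemma contDiffOn_inChart {r : ℕ∞} (c : N) (X : VField n N r) :
    ContDiffOn ℝ r (inChart c (fun x => X x)) (extChartAt (𝓡 n) c).target := by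
  rw [← contMDiffOn_iff_contDiffOn]
  intro y hy
  have hs : (extChartAt (𝓡 n) c).symm y ∈ (chartAt (V n) c).source := by
    have := (extChartAt (𝓡 n) c).map_target hy
    rwa [extChartAt_source] at this
  have h1 := (contMDiffAt_iff_chart c hs (fun x => X x)).1 (X.contMDiff _)
  have h2 : ContMDiffWithinAt 𝓘(ℝ, V n) (𝓡 n) r (extChartAt (𝓡 n) c).symm
      (extChartAt (𝓡 n) c).target y := contMDiffOn_extChartAt_symm c y hy
  exact ContMDiffAt.comp_contMDiffWithinAt (g := (fun x => mfderiv (𝓡 n) 𝓘(ℝ, V n)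
    (extChartAt (𝓡 n) c) x (X x) : N → V n)) y h1 h2

lemma contDiffAt_inChart {r : ℕ∞} (c : N) (X : VField n N r) {x : N}
    (hx : x ∈ (extChartAt (𝓡 n) c).source) :
    ContDiffAt ℝ r (inChart c (fun x => X x)) (extChartAt (𝓡 n) c x) :=
  (contDiffOn_inChart c X).contDiffAt
    ((isOpen_extChartAt_target c).mem_nhds ((extChartAt (𝓡 n) c).map_source hx))

/-- In a chart the derivatives of order at most `r` are continuous. -/
lemma continuousOn_deriv {r : ℕ∞} (c : N) (X : VField n N r) {m : ℕ} (hm : (m : ℕ∞) ≤ r) :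
    ContinuousOn (fun x => iteratedFDeriv ℝ m (inChart c (fun x => X x)) (extChartAt (𝓡 n) c x))
      (extChartAt (𝓡 n) c).source := by
  intro x hx
  have h1 := contDiffAt_inChart c X hx
  have h2 : ContinuousAt (iteratedFDeriv ℝ m (inChart c (fun x => X x)))
      (extChartAt (𝓡 n) c x) := by
    have h3 := (contDiffOn_inChart c X).continuousOn_iteratedFDerivWithin (m := m)
      (by exact_mod_cast hm) (isOpen_extChartAt_target c).uniqueDiffOn
    have h4 : ContinuousOn (iteratedFDeriv ℝ m (inChart c (fun x => X x)))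
        (extChartAt (𝓡 n) c).target := by
      refine h3.congr fun y hy => ?_
      exact (iteratedFDerivWithin_of_isOpen m (isOpen_extChartAt_target c) hy).symm
    exact h4.continuousAt
      ((isOpen_extChartAt_target c).mem_nhds ((extChartAt (𝓡 n) c).map_source hx))
  exact (ContinuousAt.comp h2 (continuousAt_extChartAt' hx)).continuousWithinAt

variable {ι : Type*} [Fintype ι]

/-- the derivatives of `X + ∑ a_j W_j` -/
lemma deriv_affine {r : ℕ∞} (c : N) (X : VField n N r) (W : ι → VField n N r)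
    (a : ι → ℝ) {m : ℕ} (hm : (m : ℕ∞) ≤ r) {x : N} (hx : x ∈ (extChartAt (𝓡 n) c).source) :
    iteratedFDeriv ℝ m (inChart c (fun x => (X + ∑ j, a j • W j) x)) (extChartAt (𝓡 n) c x) =
      iteratedFDeriv ℝ m (inChart c (fun x => X x)) (extChartAt (𝓡 n) c x) +
      ∑ j, a j • iteratedFDeriv ℝ m (inChart c (fun x => W j x)) (extChartAt (𝓡 n) c x) := by
  classical
  have key : ∀ s : Finset ι,
      iteratedFDeriv ℝ m (inChart c (fun x => (X + ∑ j ∈ s, a j • W j) x)) (extChartAt (𝓡 n) c x) =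
      iteratedFDeriv ℝ m (inChart c (fun x => X x)) (extChartAt (𝓡 n) c x) +
      ∑ j ∈ s, a j • iteratedFDeriv ℝ m (inChart c (fun x => W j x)) (extChartAt (𝓡 n) c x) := by
    intro s
    induction s using Finset.induction_on with
    | empty => simp
    | insert j s hj ih =>
      rw [Finset.sum_insert hj, Finset.sum_insert hj]
      have e1 : (fun x => (X + (a j • W j + ∑ i ∈ s, a i • W i)) x) =
          fun x => (X + ∑ i ∈ s, a i • W i) x + a j • W j x := by
        ext1 z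
        have : X + (a j • W j + ∑ i ∈ s, a i • W i) = (X + ∑ i ∈ s, a i • W i) + a j • W j := by
          abel
        rw [this]
        rfl
      rw [e1]
      have e2 := inChart_add c (fun x => (X + ∑ i ∈ s, a i • W i) x) (fun x => a j • W j x)
      rw [e2, inChart_smul c (fun x => W j x) (a j)]
      have c1 : ContDiffAt ℝ m (inChart c (fun x => (X + ∑ i ∈ s, a i • W i) x))
          (extChartAt (𝓡 n) c x) :=
        (contDiffAt_inChart c _ hx).of_le (by exact_mod_cast hm)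
      have c2 : ContDiffAt ℝ m (inChart c (fun x => W j x)) (extChartAt (𝓡 n) c x) :=
        (contDiffAt_inChart c _ hx).of_le (by exact_mod_cast hm)
      have c3 : ContDiffAt ℝ m (a j • inChart c (fun x => W j x)) (extChartAt (𝓡 n) c x) :=
        c2.const_smul (a j)
      rw [iteratedFDeriv_add_apply c1 c3, iteratedFDeriv_const_smul_apply c2, ih]
      abel
  exact key Finset.univ

lemma dv_affine {r : ℕ∞} (c : N) (X : VField n N r) (W : ι → VField n N r)
    (a : ι → ℝ) {m : ℕ} (hm : (m : ℕ∞) ≤ r) {x : N} (hx : x ∈ (extChartAt (𝓡 n) c).source) :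
    dv c m (X + ∑ j, a j • W j) x = dv c m X x + ∑ j, a j • dv c m (W j) x :=
  deriv_affine c X W a hm hx

lemma dv_cont {r : ℕ∞} (c : N) (X : VField n N r) {m : ℕ} (hm : (m : ℕ∞) ≤ r) :
    ContinuousOn (dv c m X) (extChartAt (𝓡 n) c).source := continuousOn_deriv c X hm

lemma aux_eventually {E : Type*} [NormedAddCommGroup E] [NormedSpace ℝ E] {M : Type*}
    [TopologicalSpace M] {S K : Set M} (hS : IsOpen S) (hK : IsCompact K) (hKS : K ⊆ S)
    {f g : M → E} {w : ι → M → E} (hf : ContinuousOn f S) (hg : ContinuousOn g S)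
    (hw : ∀ j, ContinuousOn (w j) S) (ε : ℝ) (a₀ : ι → ℝ)
    (h0 : ∀ x ∈ K, ‖(f x + ∑ j, a₀ j • w j x) - g x‖ < ε) :
    ∀ᶠ a in 𝓝 a₀, ∀ x ∈ K, ‖(f x + ∑ j, a j • w j x) - g x‖ < ε := by
  have hc : ∀ Z : M → E, ContinuousOn Z S → ContinuousOn (fun q : (ι → ℝ) × M => Z q.2)
      (univ ×ˢ S) := fun Z hZ => hZ.comp continuousOn_snd (fun q hq => hq.2)
  have h1 : ContinuousOn (fun q : (ι → ℝ) × M => ∑ j, q.1 j • w j q.2) (univ ×ˢ S) := by
    refine continuousOn_finsetSum _ fun j _ => ?_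
    have e : ContinuousOn (fun q : (ι → ℝ) × M => q.1 j) (univ ×ˢ S) :=
      ((continuous_apply j).comp continuous_fst).continuousOn
    exact e.smul (hc (w j) (hw j))
  have h2 : ContinuousOn (fun q : (ι → ℝ) × M =>
      ‖(f q.2 + ∑ j, q.1 j • w j q.2) - g q.2‖) (univ ×ˢ S) :=
    ContinuousOn.norm (((hc f hf).add h1).sub (hc g hg))
  refine hK.eventually_forall_of_forall_eventually (P := fun (a : ι → ℝ) (x : M) =>
    ‖(f x + ∑ j, a j • w j x) - g x‖ < ε) ?_
  intro x hx
  have h3 := h2.continuousAt (x := (a₀, x)) (by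
    rw [nhds_prod_eq]
    exact prod_mem_prod univ_mem (hS.mem_nhds (hKS hx)))
  exact h3.eventually (Iio_mem_nhds (h0 x hx))

lemma eventually_dv {r : ℕ∞} (X X₀ : VField n N r) (W : ι → VField n N r)
    (c : N) {K : Set N} (hK : IsCompact K) (hKs : K ⊆ (extChartAt (𝓡 n) c).source) {m : ℕ}
    (hmr : (m : ℕ∞) ≤ r) (ε : ℝ) (a₀ : ι → ℝ)
    (h0 : ∀ x ∈ K, ‖dv c m (X + ∑ j, a₀ j • W j) x - dv c m X₀ x‖ < ε) :
    ∀ᶠ a in 𝓝 a₀, ∀ x ∈ K, ‖dv c m (X + ∑ j, a j • W j) x - dv c m X₀ x‖ < ε := by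
  have h3 := aux_eventually (isOpen_extChartAt_source c) hK hKs (dv_cont c X hmr)
    (dv_cont c X₀ hmr) (fun j => dv_cont c (W j) hmr) ε a₀ (fun x hx => by
      have h4 := h0 x hx
      rw [dv_affine c X W a₀ hmr (hKs hx)] at h4
      exact h4)
  filter_upwards [h3] with a ha x hx
  rw [dv_affine c X W a hmr (hKs hx)]
  exact ha x hx

/-- **Affine families of vector fields are continuous.** -/
theorem continuous_affine {r : ℕ∞} (X : VField n N r) (W : ι → VField n N r) :
    @Continuous (ι → ℝ) (VField n N r) _ (crTopology n N r)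
      (fun a => X + ∑ j, a j • W j) := by
  refine continuous_generateFrom_iff.2 ?_
  rintro S ⟨c, K, k, ε, X₀, hK, hKs, hk, rfl⟩
  rw [isOpen_iff_eventually]
  intro a₀ ha₀
  have key : ∀ m ≤ k, ∀ᶠ a in 𝓝 a₀, ∀ x ∈ K,
      ‖dv c m (X + ∑ j, a j • W j) x - dv c m X₀ x‖ < ε := fun m hm =>
    eventually_dv X X₀ W c hK hKs (le_trans (by exact_mod_cast hm) hk) ε a₀
      (fun x hx => ha₀ x hx m hm)
  have h4 : ∀ᶠ a in 𝓝 a₀, ∀ m ∈ Finset.range (k + 1), ∀ x ∈ K,
      ‖dv c m (X + ∑ j, a j • W j) x - dv c m X₀ x‖ < ε := by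
    rw [Filter.eventually_all_finset]
    intro m hm
    exact key m (Nat.lt_succ_iff.1 (Finset.mem_range.1 hm))
  filter_upwards [h4] with a ha x hx m hm
  exact ha m (Finset.mem_range.2 (Nat.lt_succ_iff.2 hm)) x hx

end Pool.Agent.W5h74.FL
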